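import Pool.Agent.T6.H81.BN.Defs
import Pool.Agent.T6.H81.BG.S5

/-! Module BB (helper24): from pairs of blocks to all blocks. -/

set_option autoImplicit false

namespace Pool.Agent.T6.H81.BN

open Finset Module Matrix
open Pool.Agent.H548.WM (ht bx mem_bx Rep)
open Pool.Agent.H548.BL (lat)
open Pool.Agent.H548.TL (evz)
open Pool.Agent.T6.H5.TW (fl MultiDeg)
open Pool.Agent.T6.H81.BG (Pt Zr cf Eq PT BadB ka)

namespace ModBB

variable {m K : ℕ} {n : Fin m → ℕ}

theorem cf_congr {F : Fin K → MvPolynomial (Σ i, Fin (n i)) ℤ} {d : Fin K → Fin m → ℕ}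
    (hF : ∀ e, MultiDeg (F e) (d e)) (e : Fin K) (u : Fin m) {x x' : Pt n}
    (hx : ∀ i, i ≠ u → d e i ≠ 0 → x i = x' i) : cf F e u x = cf F e u x' := by
  funext s
  unfold cf
  apply BG.S5.indep (hF e)
  intro i hi
  by_cases hiu : i = u
  · subst hiu
    rw [Function.update_self, Function.update_self]
  · rw [Function.update_of_ne hiu, Function.update_of_ne hiu]
    exact hx i hiu hi

end ModBB

open ModBB in
theorem bB : StmtBB := by
  classical
  intro m K n F d hd hF hle hBP T v hv
  have hC : ∀ u : Fin m, ∃ C : ℝ, 0 ≤ C ∧ (u ≠ v → ∀ T : Finset (Fin m), u ∈ T → v ∈ T →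
      ∀ x : Pt n, (∀ i, x i ≠ 0) →
      LinearIndependent ℤ (fun e : BG.Eq d (T.erase v) u => cf F e.1 u x) → ∀ ρ : ℕ, 1 ≤ ρ →
      ((((bx (n v) ρ).filter fun z => z ≠ 0 ∧ ¬ LinearIndependent ℤ
        (fun e : BG.Eq d T u => cf F e.1 u (Function.update x v z))).card : ℕ) : ℝ) ≤
        C * (ρ : ℝ) ^ (n v - ∑ e, d e v * ∑ i, d e i - 1)) := by
    intro u
    by_cases huv : u = v
    · exact ⟨0, le_rfl, fun h => absurd huv h⟩
    · obtain ⟨C, hC0, hC⟩ := hBP u v huv
      refine ⟨C, hC0, fun _ T hu hv x hx hli ρ hρ => ?_⟩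
      convert hC T hu hv x hx hli ρ hρ using 3
  choose C hC0 hC using hC
  set b := n v - Fintype.card (Eq d T v) - ∑ u ∈ T.erase v, ka d T v u - 1 with hb
  refine ⟨1 + ∑ u ∈ T.erase v, C u, ?_, fun x hx hli ρ hρ => ?_⟩
  · have : 0 ≤ ∑ u ∈ T.erase v, C u := Finset.sum_nonneg fun u _ => hC0 u
    linarith
  have hnpos : ∀ i, 0 < n i := fun i => by
    have := hle i
    omega
  set x' : Pt n := fun i => if i ∈ T.erase v then x i else Pi.single ⟨0, hnpos i⟩ 1 with hx'
  have hx'0 : ∀ i, x' i ≠ 0 := by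
    intro i
    simp only [hx']
    split_ifs with h
    · exact hx.1 i h
    · intro h0
      have := congrFun h0 ⟨0, hnpos i⟩
      simp at this
  set Bad := (bx (n v) ρ).filter fun z => z ∈ lat (fun e : Eq d T v => cf F e.1 v x) ∧
    ¬ PT F d T (Function.update x v z) with hBad
  have hsub : Bad ⊆ {0} ∪ (T.erase v).biUnion fun u => (bx (n v) ρ).filter fun z =>
      z ≠ 0 ∧ ¬ LinearIndependent ℤ (fun e : Eq d T u => cf F e.1 u (Function.update x v z)) := by
    intro z hz
    rw [hBad, mem_filter] at hz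
    rw [mem_union, mem_singleton, mem_biUnion]
    by_cases hz0 : z = 0
    · exact Or.inl hz0
    · rcases BG.S5.bad_cases hd hF x hx hli z hz.2.1 hz.2.2 with h | ⟨u, hu, h⟩
      · exact Or.inl h
      · exact Or.inr ⟨u, hu, mem_filter.2 ⟨hz.1, hz0, h⟩⟩
  have hρ1 : (1 : ℝ) ≤ ρ := by exact_mod_cast hρ
  have hblock : ∀ u ∈ T.erase v, (((bx (n v) ρ).filter fun z =>
      z ≠ 0 ∧ ¬ LinearIndependent ℤ
        (fun e : Eq d T u => cf F e.1 u (Function.update x v z))).card : ℝ) ≤
      C u * (ρ : ℝ) ^ b := by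
    intro u hu
    have huv : u ≠ v := Finset.ne_of_mem_erase hu
    have huT : u ∈ T := Finset.mem_of_mem_erase hu
    have hli' : LinearIndependent ℤ (fun e : BG.Eq d (T.erase v) u => cf F e.1 u x') := by
      have h1 : (fun e : BG.Eq d (T.erase v) u => cf F e.1 u x') =
          fun e : BG.Eq d (T.erase v) u => cf F e.1 u x := by
        funext e
        apply cf_congr hF
        intro i _ hi
        have hiT : i ∈ T.erase v := by
          by_contra hcon
          exact hi (e.2.1 i hcon)
        simp only [hx']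
        rw [if_pos hiT]
      rw [h1]
      exact hx.2.2 u hu
    have h2 := hC u huv T huT hv x' hx'0 hli' ρ hρ
    have h3 : ((bx (n v) ρ).filter fun z => z ≠ 0 ∧ ¬ LinearIndependent ℤ
        (fun e : Eq d T u => cf F e.1 u (Function.update x v z))) =
        ((bx (n v) ρ).filter fun z => z ≠ 0 ∧ ¬ LinearIndependent ℤ
        (fun e : Eq d T u => cf F e.1 u (Function.update x' v z))) := by
      apply Finset.filter_congr
      intro z _
      have h4 : (fun e : Eq d T u => cf F e.1 u (Function.update x v z)) =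
          fun e : Eq d T u => cf F e.1 u (Function.update x' v z) := by
        funext e
        apply cf_congr hF
        intro i _ hi
        have hiT : i ∈ T := by
          by_contra hcon
          exact hi (e.2.1 i hcon)
        by_cases hiv : i = v
        · subst hiv
          rw [Function.update_self, Function.update_self]
        · rw [Function.update_of_ne hiv, Function.update_of_ne hiv]
          simp only [hx']
          rw [if_pos (Finset.mem_erase.2 ⟨hiv, hiT⟩)]
      rw [h4]
    rw [h3]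
    refine h2.trans (mul_le_mul_of_nonneg_left ?_ (hC0 u))
    apply pow_le_pow_right₀ hρ1
    have h5 := BG.S5.card_bound hd T v
    omega
  have hcard : (Bad.card : ℝ) ≤ 1 + ∑ u ∈ T.erase v, C u * (ρ : ℝ) ^ b := by
    have h1 : Bad.card ≤ 1 + ∑ u ∈ T.erase v, ((bx (n v) ρ).filter fun z =>
        z ≠ 0 ∧ ¬ LinearIndependent ℤ
          (fun e : Eq d T u => cf F e.1 u (Function.update x v z))).card := by
      refine (card_le_card hsub).trans ((card_union_le _ _).trans ?_)
      rw [card_singleton]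
      exact Nat.add_le_add_left card_biUnion_le 1
    have h2 : (Bad.card : ℝ) ≤ 1 + ∑ u ∈ T.erase v, (((bx (n v) ρ).filter fun z =>
        z ≠ 0 ∧ ¬ LinearIndependent ℤ
          (fun e : Eq d T u => cf F e.1 u (Function.update x v z))).card : ℝ) := by
      exact_mod_cast h1
    have h3 := Finset.sum_le_sum hblock
    linarith
  refine hcard.trans ?_
  have h4 : (1 : ℝ) ≤ (ρ : ℝ) ^ b := one_le_pow₀ hρ1
  rw [← Finset.sum_mul, add_mul, one_mul]
  linarith

end Pool.Agent.T6.H81.BN
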