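import Mathlib
import Pool.Agent.T6.H81.BH.Defs
import Pool.Agent.T6.H81.BJ.Defs

/-!
Systems of multilinear equations in products of projective spaces: a condition for the pairs of
blocks, every open subset; smooth complete intersections of divisors of type `(1, 1)` in two of the
factors. Definitions, and the statements of the modules.
-/

set_option autoImplicit false

namespace Pool.Agent.T6.H81.BN

open Finset Module Matrix
open Pool.Agent.H548.WM (ht bx mem_bx Rep)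
open Pool.Agent.H548.BL (lat)
open Pool.Agent.H548.TL (evz)
open Pool.Agent.T6.H5.TW (fl MultiDeg)
open Pool.Agent.T6.H81.BG (Pt Zr cf Eq PT BadB)
open Pool.Agent.T6.H81.BH (Gd)
open Pool.Agent.T6.H81.BJ (cvv SmB StmtGP StmtHC)

open Classical in
/-- Few vectors of the block `v` destroy the linear independence of the forms of the block `u`. -/
def BP {m K : ℕ} {n : Fin m → ℕ} (F : Fin K → MvPolynomial (Σ i, Fin (n i)) ℤ)
    (d : Fin K → Fin m → ℕ) (u v : Fin m) : Prop :=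
  ∃ C : ℝ, 0 ≤ C ∧ ∀ T : Finset (Fin m), u ∈ T → v ∈ T → ∀ x : Pt n, (∀ i, x i ≠ 0) →
    LinearIndependent ℤ (fun e : BG.Eq d (T.erase v) u => cf F e.1 u x) → ∀ ρ : ℕ, 1 ≤ ρ →
    ((((bx (n v) ρ).filter fun z => z ≠ 0 ∧ ¬ LinearIndependent ℤ
      (fun e : BG.Eq d T u => cf F e.1 u (Function.update x v z))).card : ℕ) : ℝ) ≤
      C * (ρ : ℝ) ^ (n v - ∑ e, d e v * ∑ i, d e i - 1)

open Classical in
/-- Module LC: a lower bound for the number of the points of a lattice. -/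
def StmtLC : Prop := ∀ (k N : ℕ) (A : Fin k → Fin N → ℤ), ∃ c : ℝ, 0 < c ∧ ∀ ρ : ℕ, 1 ≤ ρ →
  c * (ρ : ℝ) ^ (N - k) ≤ ((((bx N ρ).filter fun z => z ∈ lat A).card : ℕ) : ℝ)

/-- Module BB: from pairs of blocks to all blocks. -/
def StmtBB : Prop := ∀ (m K : ℕ) (n : Fin m → ℕ) (F : Fin K → MvPolynomial (Σ i, Fin (n i)) ℤ)
  (d : Fin K → Fin m → ℕ), (∀ e v, d e v ≤ 1) → (∀ e, MultiDeg (F e) (d e)) →
  (∀ v, ∑ e, d e v * ∑ u, d e u + 1 ≤ n v) → (∀ u v, u ≠ v → BP F d u v) → BadB F d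

/-- Module NI: a point with integer coordinates. -/
def StmtNI : Prop := ∀ (m K : ℕ) (n : Fin m → ℕ) (F : Fin K → MvPolynomial (Σ i, Fin (n i)) ℤ)
  (d : Fin K → Fin m → ℕ), (∀ e v, d e v ≤ 1) → (∀ e, MultiDeg (F e) (d e)) →
  (∀ e, 2 ≤ ∑ v, d e v) →
  (∀ v, ∑ e, d e v * ∑ u, d e u + 1 ≤ n v) → (∀ u v, u ≠ v → BP F d u v) →
  ∃ x : Pt n, PT F d univ x

/-- Module CH5: any two points are connected by changes of the blocks. -/
def StmtCH5 : Prop := ∀ (m K : ℕ) (n : Fin m → ℕ) (F : Fin K → MvPolynomial (Σ i, Fin (n i)) ℤ)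
  (d : Fin K → Fin m → ℕ), (∀ e v, d e v ≤ 1) → (∀ e, MultiDeg (F e) (d e)) →
  (∀ e, 2 ≤ ∑ v, d e v) →
  (∀ v, ∑ e, d e v * ∑ u, d e u + 1 ≤ n v) → (∀ u v, u ≠ v → BP F d u v) →
  ∀ (G : MvPolynomial (Σ i, Fin (n i)) ℤ) (x' : Pt n), (∀ v, x' v ≠ 0) → Zr F x' →
    (∀ v, LinearIndependent ℤ (fun e : BG.Eq d univ v => cf F e.1 v x')) →
    evz G (fl x') ≠ 0 → ∀ x : Pt n, (∀ v, x v ≠ 0) → Zr F x →
      (∀ v, LinearIndependent ℤ (fun e : BG.Eq d univ v => cf F e.1 v x)) →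
      Gd (ι := fun v => BG.Eq d univ v) (fun v x e => cf F e.1 v x) G
        (List.finRange m ++ List.finRange m) x

open Classical in
/-- Module WL: few `z` for which the vectors `M e * z` are dependent modulo given vectors. -/
def StmtWL : Prop := ∀ (k N1 N2 : ℕ) (M : Fin k → Matrix (Fin N1) (Fin N2) ℤ), SmB ℂ M →
  ∀ k' E : ℕ, k + k' + N2 ≤ N1 + E → k + k' ≤ E → ∃ C : ℝ, 0 ≤ C ∧
    ∀ (l : Fin k' → Fin N1 → ℤ) (ρ : ℕ), 1 ≤ ρ →
      ((((bx N2 ρ).filter fun z => ∃ (s : Fin k → ℤ) (t : Fin k' → ℤ), s ≠ 0 ∧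
        ∑ e, s e • cvv M z e = ∑ i, t i • l i).card : ℕ) : ℝ) ≤ C * (ρ : ℝ) ^ E

/-- Module PM: a polynomial of type `(1, 1)` in two of the blocks as a matrix. -/
def StmtPM : Prop := ∀ (m : ℕ) (n : Fin m → ℕ) (p : MvPolynomial (Σ i, Fin (n i)) ℤ)
  (δ : Fin m → ℕ) (u v : Fin m), u ≠ v → MultiDeg p δ → δ u = 1 → δ v = 1 → ∑ i, δ i = 2 →
  ∃ M : Matrix (Fin (n u)) (Fin (n v)) ℤ, ∀ (R : Type) [CommRing R] (x : ∀ i, Fin (n i) → R),
    evz p (fl x) = x u ⬝ᵥ (M.map (Int.cast : ℤ → R) *ᵥ x v) ∧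
    (fun s => evz p (fl (Function.update x u (Pi.single s 1)))) =
      M.map (Int.cast : ℤ → R) *ᵥ x v ∧
    (fun s => evz p (fl (Function.update x v (Pi.single s 1)))) =
      x u ᵥ* M.map (Int.cast : ℤ → R)

/-- Module BPQ: the condition for a pair of blocks whose common equations contain only these two
blocks and define a smooth complete intersection. -/
def StmtBPQ : Prop := ∀ (m K : ℕ) (n : Fin m → ℕ) (F : Fin K → MvPolynomial (Σ i, Fin (n i)) ℤ)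
  (d : Fin K → Fin m → ℕ), (∀ e v, d e v ≤ 1) → (∀ e, MultiDeg (F e) (d e)) →
  ∀ u v, u ≠ v → (∀ e, d e u = 1 → d e v = 1 → ∑ i, d e i = 2) →
  ∑ e, d e u + ∑ e, d e v * ∑ i, d e i + 1 ≤ n u →
  ∑ e, d e u + ∑ e, d e v * ∑ i, d e i + 1 ≤ n v →
  (∀ z : ∀ i, Fin (n i) → ℂ, z u ≠ 0 → z v ≠ 0 →
    (∀ e, d e u = 1 → d e v = 1 → evz (F e) (fl z) = 0) →
    LinearIndependent ℂ (fun e : {e : Fin K // d e u = 1 ∧ d e v = 1} =>
      (cf F e.1 u z, cf F e.1 v z))) →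
  BP F d u v

/-- Module BPR: the condition for a pair of blocks with at most one common equation, which has a
large rank. -/
def StmtBPR : Prop := ∀ (m K : ℕ) (n : Fin m → ℕ) (F : Fin K → MvPolynomial (Σ i, Fin (n i)) ℤ)
  (d : Fin K → Fin m → ℕ), (∀ e v, d e v ≤ 1) → (∀ e, MultiDeg (F e) (d e)) →
  (∀ v, ∑ e, d e v * ∑ u, d e u + 1 ≤ n v) →
  ∀ u v, u ≠ v →
  (∀ e e', d e u = 1 → d e v = 1 → d e' u = 1 → d e' v = 1 → e = e') →
  (∀ e, d e u = 1 → d e v = 1 → ∀ x : Pt n, (∀ i, x i ≠ 0) →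
    ∑ e', d e' u + ∑ e', d e' v * ∑ i, d e' i ≤
      ((BG.mf F e u v x).map (Int.cast : ℤ → ℚ)).rank) →
  BP F d u v

/-- Module SS: the systems of the pairs of blocks of a smooth complete intersection. -/
def StmtSS : Prop := ∀ (m K : ℕ) (n : Fin m → ℕ) (F : Fin K → MvPolynomial (Σ i, Fin (n i)) ℤ)
  (d : Fin K → Fin m → ℕ), (∀ e v, d e v ≤ 1) → (∀ e, MultiDeg (F e) (d e)) →
  (∀ e, 2 ≤ ∑ v, d e v) → (∀ v, ∑ e, d e v + 1 ≤ n v) →
  (∀ z : ∀ v, Fin (n v) → ℂ, (∀ v, z v ≠ 0) → Zr F z →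
    LinearIndependent ℂ (fun (e : Fin K) (v : Fin m) => cf F e v z)) →
  ∀ u v, u ≠ v → (∀ e, d e u = 1 → d e v = 1 → ∑ i, d e i = 2) → ∀ z : ∀ i, Fin (n i) → ℂ, z u ≠ 0 → z v ≠ 0 →
    (∀ e, d e u = 1 → d e v = 1 → evz (F e) (fl z) = 0) →
    LinearIndependent ℂ (fun e : {e : Fin K // d e u = 1 ∧ d e v = 1} =>
      (cf F e.1 u z, cf F e.1 v z))

end Pool.Agent.T6.H81.BN
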