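import Mathlib
import Pool.Agent.T6.H81.BN.Defs
import Pool.Agent.T6.H81.BG.S5

/-! Module BPQ: the condition for a pair of blocks whose common equations contain only these two
blocks and define a smooth complete intersection. -/

set_option autoImplicit false

namespace Pool.Agent.T6.H81.BN

open Finset Module Matrix
open Pool.Agent.H548.WM (ht bx mem_bx Rep)
open Pool.Agent.H548.BL (lat)
open Pool.Agent.H548.TL (evz)
open Pool.Agent.T6.H5.TW (fl MultiDeg)
open Pool.Agent.T6.H81.BG (Pt Zr cf Eq PT BadB)
open Pool.Agent.T6.H81.BH (Gd)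
open Pool.Agent.T6.H81.BJ (cvv rvv SmB IncB StmtGP StmtHC)

namespace BPQx

/-- the sum over the elements with a property as a sum over an enumeration -/
theorem sum_enum {α M : Type} [Fintype α] [AddCommMonoid M] {P : α → Prop} [DecidablePred P]
    [Fintype {a // P a}] {k : ℕ} (f : Fin k ≃ {a // P a}) (H : α → M) :
    ∑ a ∈ univ.filter P, H a = ∑ i, H (f i).1 := by
  rw [f.sum_comp (fun a : {a // P a} => H a.1)]
  exact (Finset.sum_subtype (univ.filter P) (fun x => by simp) H)

end BPQx

open Classical in
/-- Module BPQ. -/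
theorem bPQ (hWL : StmtWL) (hPM : StmtPM) : StmtBPQ := by
  intro m K n F d hd hF u v huv h2 hnu hnv hsm
  -- the equations which contain both blocks
  set k := Fintype.card {e : Fin K // d e u = 1 ∧ d e v = 1} with hk
  let f : Fin k ≃ {e : Fin K // d e u = 1 ∧ d e v = 1} := (Fintype.equivFin _).symm
  have hM : ∀ i : Fin k, ∃ M : Matrix (Fin (n u)) (Fin (n v)) ℤ, ∀ (R : Type) [CommRing R]
      (x : ∀ i, Fin (n i) → R),
      evz (F (f i).1) (fl x) = x u ⬝ᵥ (M.map (Int.cast : ℤ → R) *ᵥ x v) ∧
      cf F (f i).1 u x = M.map (Int.cast : ℤ → R) *ᵥ x v ∧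
      cf F (f i).1 v x = x u ᵥ* M.map (Int.cast : ℤ → R) := fun i =>
    hPM m n (F (f i).1) (d (f i).1) u v huv (hF _) (f i).2.1 (f i).2.2
      (h2 _ (f i).2.1 (f i).2.2)
  choose M hM using hM
  have hev : ∀ (R : Type) [CommRing R] (x : ∀ i, Fin (n i) → R) (i : Fin k),
      evz (F (f i).1) (fl x) = x u ⬝ᵥ cvv M (x v) i := fun R _ x i => (hM i R x).1
  have hcu : ∀ (R : Type) [CommRing R] (x : ∀ i, Fin (n i) → R) (i : Fin k),
      cf F (f i).1 u x = cvv M (x v) i := fun R _ x i => (hM i R x).2.1
  have hcv : ∀ (R : Type) [CommRing R] (x : ∀ i, Fin (n i) → R) (i : Fin k),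
      cf F (f i).1 v x = rvv M (x u) i := fun R _ x i => (hM i R x).2.2
  -- the pair is smooth
  have hSm : SmB ℂ M := by
    intro s x0 y0 hs hx0 hy0 hinc hc hr
    let z : ∀ i, Fin (n i) → ℂ := Function.update (Function.update (fun _ _ => 0) u x0) v y0
    have hzu : z u = x0 := by
      simp only [z]
      rw [Function.update_of_ne huv, Function.update_self]
    have hzv : z v = y0 := by
      simp only [z]
      rw [Function.update_self]
    have hli := hsm z (by rw [hzu]; exact hx0) (by rw [hzv]; exact hy0) (by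
      intro e he1 he2
      have h3 := hev ℂ z (f.symm ⟨e, he1, he2⟩)
      rw [Equiv.apply_symm_apply] at h3
      rw [h3, hzu, hzv]
      exact hinc _)
    rw [Fintype.linearIndependent_iff] at hli
    have h4 := hli (fun e => s (f.symm e)) (by
      rw [← f.sum_comp]
      simp only [Equiv.symm_apply_apply]
      apply Prod.ext
      · rw [Prod.fst_sum]
        simp only [Prod.smul_fst, Prod.fst_zero]
        rw [← hc]
        refine Finset.sum_congr rfl fun i _ => ?_
        rw [hcu ℂ z i, hzv]
      · rw [Prod.snd_sum]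
        simp only [Prod.smul_snd, Prod.snd_zero]
        rw [← hr]
        refine Finset.sum_congr rfl fun i _ => ?_
        rw [hcv ℂ z i, hzu])
    apply hs
    funext i
    have h5 := h4 (f i)
    rwa [Equiv.symm_apply_apply] at h5
  -- the constants
  set E := n v - ∑ e, d e v * ∑ i, d e i - 1 with hE
  set ku := ∑ e, d e u with hku
  have hWk : ∀ k' : ℕ, ∃ C : ℝ, 0 ≤ C ∧ (k + k' ≤ ku →
      ∀ (l : Fin k' → Fin (n u) → ℤ) (ρ : ℕ), 1 ≤ ρ →
      ((((bx (n v) ρ).filter fun z => ∃ (s : Fin k → ℤ) (t : Fin k' → ℤ), s ≠ 0 ∧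
        ∑ e, s e • cvv M z e = ∑ i, t i • l i).card : ℕ) : ℝ) ≤ C * (ρ : ℝ) ^ E) := by
    intro k'
    by_cases hkk : k + k' ≤ ku
    · obtain ⟨C, hC, h3⟩ := hWL k (n u) (n v) M hSm k' E (by omega) (by omega)
      refine ⟨C, hC, fun _ l ρ hρ => ?_⟩
      have h4 := h3 l ρ hρ
      convert h4
    · exact ⟨0, le_rfl, fun h => absurd h hkk⟩
  choose C hC0 hC using hWk
  refine ⟨∑ k' ∈ range (ku + 1), C k', Finset.sum_nonneg fun k' _ => hC0 k', ?_⟩
  intro T hu hv x _ hli ρ hρ
  set k' := Fintype.card (BG.Eq d (T.erase v) u) with hk'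
  let g : Fin k' ≃ BG.Eq d (T.erase v) u := (Fintype.equivFin _).symm
  -- the number of the equations
  have hkk : k + k' ≤ ku := by
    have e1 : k = (univ.filter (fun e : Fin K => d e u = 1 ∧ d e v = 1)).card := by
      rw [hk, Fintype.card_subtype]
    have e2 : k' = (univ.filter (fun e : Fin K =>
        (∀ i, i ∉ T.erase v → d e i = 0) ∧ d e u = 1)).card := by
      rw [hk', Fintype.card_subtype]
    have hdisj : Disjoint (univ.filter (fun e : Fin K => d e u = 1 ∧ d e v = 1))
        (univ.filter (fun e : Fin K => (∀ i, i ∉ T.erase v → d e i = 0) ∧ d e u = 1)) := by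
      rw [Finset.disjoint_left]
      intro e he1 he2
      have h3 := (mem_filter.1 he1).2.2
      have h4 := (mem_filter.1 he2).2.1 v (by simp)
      omega
    rw [e1, e2, ← Finset.card_union_of_disjoint hdisj, hku]
    rw [Finset.card_eq_sum_ones]
    calc ∑ e ∈ _, 1 ≤ ∑ e ∈ (univ.filter (fun e : Fin K => d e u = 1 ∧ d e v = 1)) ∪
          (univ.filter (fun e : Fin K => (∀ i, i ∉ T.erase v → d e i = 0) ∧ d e u = 1)), d e u := by
          refine Finset.sum_le_sum fun e he => ?_
          rw [mem_union] at he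
          rcases he with he | he
          · rw [(mem_filter.1 he).2.1]
          · rw [(mem_filter.1 he).2.2]
      _ ≤ _ := Finset.sum_le_sum_of_subset (subset_univ _)
  have hmain := hC k' hkk (fun i => cf F (g i).1 u x) ρ hρ
  have hCle : C k' ≤ ∑ k' ∈ range (ku + 1), C k' :=
    Finset.single_le_sum (f := C) (fun i _ => hC0 i) (mem_range.2 (by omega))
  refine le_trans ?_ (mul_le_mul_of_nonneg_right hCle (by positivity))
  refine le_trans ?_ hmain
  have hsub : ((bx (n v) ρ).filter fun z => z ≠ 0 ∧ ¬ LinearIndependent ℤ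
      (fun e : BG.Eq d T u => cf F e.1 u (Function.update x v z))) ⊆
      (bx (n v) ρ).filter fun z => ∃ (s : Fin k → ℤ) (t : Fin k' → ℤ), s ≠ 0 ∧
        ∑ e, s e • cvv M z e = ∑ i, t i • cf F (g i).1 u x := by
    intro z hz
    rw [mem_filter] at hz ⊢
    refine ⟨hz.1, ?_⟩
    have hdep := hz.2.2
    rw [Fintype.not_linearIndependent_iff] at hdep
    obtain ⟨γ, hγ, e0, he0⟩ := hdep
    -- extension by zero
    let G : Fin K → ℤ := fun e =>
      if h : (∀ i, i ∉ T → d e i = 0) ∧ d e u = 1 then γ ⟨e, h⟩ else 0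
    have hG : ∀ e : BG.Eq d T u, G e.1 = γ e := fun e => by
      simp only [G]
      rw [dif_pos e.2]
    set A : Finset (Fin K) := univ.filter (fun e => d e u = 1 ∧ d e v = 1) with hA
    set B : Finset (Fin K) :=
      univ.filter (fun e => (∀ i, i ∉ T.erase v → d e i = 0) ∧ d e u = 1) with hB
    have hdisj : Disjoint A B := by
      rw [Finset.disjoint_left]
      intro e he1 he2
      have h3 := (mem_filter.1 he1).2.2
      have h4 := (mem_filter.1 he2).2.1 v (by simp)
      omega
    have hGz : ∀ e, e ∉ A → e ∉ B → G e = 0 := by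
      intro e heA heB
      simp only [G]
      split_ifs with h
      · exfalso
        rcases Nat.lt_or_ge (d e v) 1 with h3 | h3
        · apply heB
          rw [hB, mem_filter]
          refine ⟨mem_univ _, fun i hi => ?_, h.2⟩
          by_cases hiv : i = v
          · rw [hiv]; omega
          · exact h.1 i (fun hT => hi (Finset.mem_erase.2 ⟨hiv, hT⟩))
        · apply heA
          rw [hA, mem_filter]
          exact ⟨mem_univ _, h.2, by have := hd e v; omega⟩
      · rfl
    have hsum0 : ∑ e, G e • cf F e u (Function.update x v z) = 0 := by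
      have e1 : ∑ e : BG.Eq d T u, γ e • cf F e.1 u (Function.update x v z) =
          ∑ e ∈ univ.filter (fun e : Fin K => (∀ i, i ∉ T → d e i = 0) ∧ d e u = 1),
            G e • cf F e u (Function.update x v z) := by
        rw [Finset.sum_subtype (univ.filter (fun e : Fin K =>
          (∀ i, i ∉ T → d e i = 0) ∧ d e u = 1)) (p := fun e : Fin K =>
          (∀ i, i ∉ T → d e i = 0) ∧ d e u = 1) (fun x => by simp)]
        refine Finset.sum_congr rfl fun e _ => ?_
        rw [hG]
      rw [← hγ, e1]
      symm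
      apply Finset.sum_subset (Finset.subset_univ _)
      intro e _ he
      have : G e = 0 := by
        simp only [G]
        rw [dif_neg]
        intro h
        exact he (mem_filter.2 ⟨mem_univ _, h⟩)
      rw [this, zero_smul]
    have hsplit : ∑ e, G e • cf F e u (Function.update x v z) =
        ∑ e ∈ A, G e • cf F e u (Function.update x v z) +
          ∑ e ∈ B, G e • cf F e u (Function.update x v z) := by
      rw [← Finset.sum_union hdisj]
      symm
      apply Finset.sum_subset (Finset.subset_univ _)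
      intro e _ he
      rw [mem_union, not_or] at he
      rw [hGz e he.1 he.2, zero_smul]
    have hAs : ∑ e ∈ A, G e • cf F e u (Function.update x v z) =
        ∑ i, G (f i).1 • cvv M z i := by
      rw [hA, BPQx.sum_enum f]
      refine Finset.sum_congr rfl fun i _ => ?_
      rw [hcu ℤ (Function.update x v z) i, Function.update_self]
    have hBs : ∑ e ∈ B, G e • cf F e u (Function.update x v z) =
        ∑ i, G (g i).1 • cf F (g i).1 u x := by
      rw [hB, BPQx.sum_enum g]
      refine Finset.sum_congr rfl fun i _ => ?_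
      rw [BG.S5.cf_indep hF huv ((g i).2.1 v (by simp))]
    rw [hsplit, hAs, hBs] at hsum0
    refine ⟨fun i => G (f i).1, fun i => -G (g i).1, ?_, ?_⟩
    · intro hs0
      have hfz : ∀ i, G (f i).1 = 0 := fun i => congrFun hs0 i
      have h5 : ∑ i, G (g i).1 • cf F (g i).1 u x = 0 := by
        have : ∑ i, G (f i).1 • cvv M z i = 0 :=
          Finset.sum_eq_zero fun i _ => by rw [hfz i, zero_smul]
        rwa [this, zero_add] at hsum0
      rw [Fintype.linearIndependent_iff] at hli
      have h6 := hli (fun e => G e.1) (by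
        rw [← g.sum_comp]
        exact h5)
      apply he0
      rw [← hG]
      by_cases hcA : e0.1 ∈ A
      · have h7 := hfz (f.symm ⟨e0.1, (mem_filter.1 hcA).2⟩)
        rwa [Equiv.apply_symm_apply] at h7
      · by_cases hcB : e0.1 ∈ B
        · exact h6 ⟨e0.1, (mem_filter.1 hcB).2⟩
        · exact hGz _ hcA hcB
    · simp only [neg_smul, Finset.sum_neg_distrib]
      exact eq_neg_of_add_eq_zero_left hsum0
  exact_mod_cast card_le_card hsub

end Pool.Agent.T6.H81.BN
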