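import Mathlib
import Pool.Agent.T6.H81.BN.Defs
import Pool.Agent.T6.H81.BH.CH1

/-! Module CH5: any two points are connected by changes of the blocks. -/

set_option autoImplicit false

namespace Pool.Agent.T6.H81.BN

open Finset Module Matrix
open Pool.Agent.H548.WM (ht bx mem_bx Rep)
open Pool.Agent.H548.BL (lat)
open Pool.Agent.H548.TL (evz)
open Pool.Agent.T6.H5.TW (fl MultiDeg)
open Pool.Agent.T6.H81.BG (Pt Zr cf Eq PT BadB)
open Pool.Agent.T6.H81.BH (Gd)
open Pool.Agent.T6.H81.BH.CH1 (mix dep)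

namespace ModCH5

variable {m K : ℕ} {n : Fin m → ℕ}

/-- a good vector exists by counting -/
theorem exists_good {N b : ℕ} {I : Type} [Fintype I] (c : ℝ) (hc : 0 < c)
    (G : ℕ → Finset (Fin N → ℤ)) (hG : ∀ ρ : ℕ, 1 ≤ ρ → c * (ρ : ℝ) ^ (b + 1) ≤ ((G ρ).card : ℝ))
    (C : I → ℝ) (Bd : I → ℕ → Finset (Fin N → ℤ))
    (hB : ∀ i (ρ : ℕ), 1 ≤ ρ → ((Bd i ρ).card : ℝ) ≤ C i * (ρ : ℝ) ^ b) :
    ∃ ρ : ℕ, 1 ≤ ρ ∧ ∃ z ∈ G ρ, z ≠ 0 ∧ ∀ i, z ∉ Bd i ρ := by
  classical
  obtain ⟨r, hr⟩ := exists_nat_gt ((1 + ∑ i, C i) / c)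
  refine ⟨r + 1, by omega, ?_⟩
  by_contra hcon
  push Not at hcon
  have hsub : G (r + 1) ⊆ {0} ∪ univ.biUnion fun i => Bd i (r + 1) := by
    intro z hz
    rw [mem_union, mem_singleton, mem_biUnion]
    by_cases h0 : z = 0
    · exact Or.inl h0
    · obtain ⟨i, hi⟩ := hcon z hz h0
      exact Or.inr ⟨i, mem_univ _, hi⟩
  have h1 : (G (r + 1)).card ≤ 1 + ∑ i, (Bd i (r + 1)).card := by
    refine (card_le_card hsub).trans ((card_union_le _ _).trans ?_)
    rw [card_singleton]
    exact Nat.add_le_add_left card_biUnion_le 1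
  have h2 : ((G (r + 1)).card : ℝ) ≤ 1 + ∑ i, ((Bd i (r + 1)).card : ℝ) := by exact_mod_cast h1
  have h3 := hG (r + 1) (by omega)
  have h4 : ∑ i, ((Bd i (r + 1)).card : ℝ) ≤ (∑ i, C i) * ((r + 1 : ℕ) : ℝ) ^ b := by
    rw [Finset.sum_mul]
    exact Finset.sum_le_sum fun i _ => hB i (r + 1) (by omega)
  have hρ : (1 : ℝ) ≤ ((r + 1 : ℕ) : ℝ) := by
    push_cast
    have : (0 : ℝ) ≤ r := Nat.cast_nonneg r
    linarith
  have h5 : (1 : ℝ) ≤ ((r + 1 : ℕ) : ℝ) ^ b := one_le_pow₀ hρ
  have h6 : (1 + ∑ i, C i) < c * ((r + 1 : ℕ) : ℝ) := by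
    rw [div_lt_iff₀ hc] at hr
    push_cast
    nlinarith
  have h7 : c * ((r + 1 : ℕ) : ℝ) ^ (b + 1) = (c * ((r + 1 : ℕ) : ℝ)) * ((r + 1 : ℕ) : ℝ) ^ b := by
    rw [pow_succ]
    ring
  have h8 : (1 + ∑ i, C i) * ((r + 1 : ℕ) : ℝ) ^ b < (c * ((r + 1 : ℕ) : ℝ)) * ((r + 1 : ℕ) : ℝ) ^ b :=
    mul_lt_mul_of_pos_right h6 (by linarith)
  have h9 : (1 + ∑ i, C i) * ((r + 1 : ℕ) : ℝ) ^ b =
      ((r + 1 : ℕ) : ℝ) ^ b + (∑ i, C i) * ((r + 1 : ℕ) : ℝ) ^ b := by ring
  linarith

open Classical in
theorem bp_fin {F : Fin K → MvPolynomial (Σ i, Fin (n i)) ℤ} {d : Fin K → Fin m → ℕ} {u v : Fin m}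
    (h : BP F d u v) (T : Finset (Fin m)) (hu : u ∈ T) (hv : v ∈ T) (x : Pt n)
    (hx : ∀ i, x i ≠ 0)
    (hLI : LinearIndependent ℤ (fun e : BG.Eq d (T.erase v) u => cf F e.1 u x)) :
    ∃ (C : ℝ) (Bd : ℕ → Finset (Fin (n v) → ℤ)), 0 ≤ C ∧
      (∀ ρ : ℕ, 1 ≤ ρ → ((Bd ρ).card : ℝ) ≤ C * (ρ : ℝ) ^ (n v - ∑ e, d e v * ∑ i, d e i - 1)) ∧
      ∀ (ρ : ℕ) (z : Fin (n v) → ℤ), z ∈ bx (n v) ρ → z ≠ 0 → z ∉ Bd ρ →
        LinearIndependent ℤ (fun e : BG.Eq d T u => cf F e.1 u (Function.update x v z)) := by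
  obtain ⟨C, hC, hb⟩ := h
  refine ⟨C, fun ρ => (bx (n v) ρ).filter fun z => z ≠ 0 ∧ ¬ LinearIndependent ℤ
      (fun e : BG.Eq d T u => cf F e.1 u (Function.update x v z)), hC,
    fun ρ hρ => hb T hu hv x hx hLI ρ hρ, ?_⟩
  intro ρ z hz hz0 hz1
  by_contra hcon
  exact hz1 (mem_filter.2 ⟨hz, hz0, hcon⟩)

open Classical in
theorem lc_fin (hLC : StmtLC) (k N : ℕ) (A : Fin k → Fin N → ℤ) :
    ∃ (c : ℝ) (G : ℕ → Finset (Fin N → ℤ)), 0 < c ∧
      (∀ ρ : ℕ, 1 ≤ ρ → c * (ρ : ℝ) ^ (N - k) ≤ ((G ρ).card : ℝ)) ∧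
      ∀ (ρ : ℕ) (z : Fin N → ℤ), z ∈ G ρ → z ∈ bx N ρ ∧ ∀ i, A i ⬝ᵥ z = 0 := by
  obtain ⟨c, hc, h⟩ := hLC k N A
  refine ⟨c, fun ρ => (bx N ρ).filter fun z => z ∈ lat A, hc, h, ?_⟩
  intro ρ z hz
  rw [mem_filter] at hz
  exact ⟨hz.1, hz.2⟩

/-- the first blocks -/
def Tj (m j : ℕ) : Finset (Fin m) := univ.filter fun w => (w : ℕ) < j

theorem mem_Tj {m j : ℕ} {w : Fin m} : w ∈ Tj m j ↔ (w : ℕ) < j := by
  unfold Tj
  rw [mem_filter]
  exact ⟨fun h => h.2, fun h => ⟨mem_univ _, h⟩⟩

/-- the points of the first chain -/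
def hP (x y : Pt n) (j : ℕ) : Pt n := fun u => if (u : ℕ) < j then y u else x u

/-- the points of the second chain -/
def hR (x x' y : Pt n) (j k : ℕ) : Pt n :=
  fun u => if (u : ℕ) < k then x' u else if (u : ℕ) < j then y u else x u

theorem cf_congr {F : Fin K → MvPolynomial (Σ i, Fin (n i)) ℤ} {d : Fin K → Fin m → ℕ}
    (hF : ∀ e, MultiDeg (F e) (d e)) (e : Fin K) (u : Fin m) (x x' : Pt n)
    (h : ∀ i, i ≠ u → d e i ≠ 0 → x i = x' i) : cf F e u x = cf F e u x' := by
  funext s
  unfold cf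
  refine dep (hF e) _ _ fun i hi => ?_
  by_cases hiu : i = u
  · subst hiu
    rw [Function.update_self, Function.update_self]
  · rw [Function.update_of_ne hiu, Function.update_of_ne hiu]
    exact h i hiu hi

theorem li_mono {F : Fin K → MvPolynomial (Σ i, Fin (n i)) ℤ} {d : Fin K → Fin m → ℕ}
    {T T' : Finset (Fin m)} (hT : T ⊆ T') {u : Fin m} {x : Pt n}
    (h : LinearIndependent ℤ (fun e : BG.Eq d T' u => cf F e.1 u x)) :
    LinearIndependent ℤ (fun e : BG.Eq d T u => cf F e.1 u x) := by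
  let φ : BG.Eq d T u → BG.Eq d T' u := fun e =>
    ⟨e.1, fun i hi => e.2.1 i (fun h => hi (hT h)), e.2.2⟩
  have hφ : Function.Injective φ := by
    intro a b hab
    have hab1 := congrArg Subtype.val hab
    have hab2 : a.1 = b.1 := hab1
    exact Subtype.ext hab2
  exact h.comp φ hφ

theorem li_congr {F : Fin K → MvPolynomial (Σ i, Fin (n i)) ℤ} {d : Fin K → Fin m → ℕ}
    (hF : ∀ e, MultiDeg (F e) (d e)) {T : Finset (Fin m)} {u : Fin m} {x x' : Pt n}
    (h : ∀ i, i ≠ u → i ∈ T → x i = x' i)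
    (hx : LinearIndependent ℤ (fun e : BG.Eq d T u => cf F e.1 u x)) :
    LinearIndependent ℤ (fun e : BG.Eq d T u => cf F e.1 u x') := by
  have : (fun e : BG.Eq d T u => cf F e.1 u x') = (fun e : BG.Eq d T u => cf F e.1 u x) := by
    funext e
    refine (cf_congr hF e.1 u x x' fun i hiu hi => ?_).symm
    apply h i hiu
    by_contra hcon
    exact hi (e.2.1 i hcon)
  rw [this]
  exact hx

theorem exists_y (hLC : StmtLC) (F : Fin K → MvPolynomial (Σ i, Fin (n i)) ℤ)
    (d : Fin K → Fin m → ℕ) (hd : ∀ e v, d e v ≤ 1) (hF : ∀ e, MultiDeg (F e) (d e))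
    (hn : ∀ v, ∑ e, d e v * ∑ u, d e u + 1 ≤ n v) (hBP : ∀ u v, u ≠ v → BP F d u v)
    (x x' : Pt n) (hx0 : ∀ v, x v ≠ 0) (hx'0 : ∀ v, x' v ≠ 0)
    (hLx : ∀ v, LinearIndependent ℤ (fun e : BG.Eq d univ v => cf F e.1 v x))
    (hLx' : ∀ v, LinearIndependent ℤ (fun e : BG.Eq d univ v => cf F e.1 v x'))
    (j : ℕ) (hj : j ≤ m) :
    ∃ y : Pt n, (∀ v, y v ≠ 0) ∧
      (∀ v : Fin m, (v : ℕ) < j → ∀ e w, d e v = 1 → d e w = 1 →
        cf F e v (mix x x' y v w) ⬝ᵥ y v = 0) ∧
      (∀ v : Fin m, (v : ℕ) < j →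
        LinearIndependent ℤ (fun e : BG.Eq d univ v => cf F e.1 v (hP x y v))) ∧
      (∀ u : Fin m, j ≤ (u : ℕ) →
        LinearIndependent ℤ (fun e : BG.Eq d univ u => cf F e.1 u (hP x y j))) ∧
      (∀ u : Fin m, (u : ℕ) < j →
        LinearIndependent ℤ (fun e : BG.Eq d (Tj m j) u => cf F e.1 u (hR x x' y j u))) := by
  classical
  induction j with
  | zero =>
    refine ⟨x, hx0, fun v hv => absurd hv (Nat.not_lt_zero _),
      fun v hv => absurd hv (Nat.not_lt_zero _), fun u _ => ?_,
      fun v hv => absurd hv (Nat.not_lt_zero _)⟩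
    refine li_congr hF (fun i _ _ => ?_) (hLx u)
    unfold hP
    simp
  | succ j ih =>
    obtain ⟨y, hy0, hyE, hyA, hyB, hyC⟩ := ih (by omega)
    obtain ⟨v, hv⟩ : ∃ v : Fin m, (v : ℕ) = j := ⟨⟨j, by omega⟩, rfl⟩
    have hcard : Fintype.card {q : Fin K × Fin m // d q.1 v = 1 ∧ d q.1 q.2 = 1} =
        ∑ e, d e v * ∑ u, d e u := by
      rw [Fintype.card_subtype, Finset.card_filter, Fintype.sum_prod_type]
      refine Finset.sum_congr rfl fun e _ => ?_
      rw [Finset.mul_sum]
      refine Finset.sum_congr rfl fun u _ => ?_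
      have h2 := hd e v
      have h3 := hd e u
      show (if d e v = 1 ∧ d e u = 1 then 1 else 0) = d e v * d e u
      rcases Nat.le_one_iff_eq_zero_or_eq_one.1 h2 with h2 | h2 <;>
      rcases Nat.le_one_iff_eq_zero_or_eq_one.1 h3 with h3 | h3 <;> simp [h2, h3]
    obtain ⟨en⟩ : Nonempty (Fin (∑ e, d e v * ∑ u, d e u) ≃
        {q : Fin K × Fin m // d q.1 v = 1 ∧ d q.1 q.2 = 1}) := by
      rw [← hcard]
      exact ⟨(Fintype.equivFin _).symm⟩
    obtain ⟨c, G, hc, hG, hGm⟩ := lc_fin hLC _ (n v)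
      (fun i => cf F (en i).1.1 v (mix x x' y v (en i).1.2))
    -- the bad vectors
    have hP0 : ∀ i, hP x y j i ≠ 0 := by
      intro i
      unfold hP
      split_ifs
      · exact hy0 i
      · exact hx0 i
    have hR0 : ∀ (k : ℕ) i, hR x x' y j k i ≠ 0 := by
      intro k i
      unfold hR
      split_ifs
      · exact hx'0 i
      · exact hy0 i
      · exact hx0 i
    have hTe : (Tj m (j + 1)).erase v = Tj m j := by
      ext w
      rw [mem_erase, mem_Tj, mem_Tj]
      constructor
      · rintro ⟨h1, h2⟩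
        have : (w : ℕ) ≠ v := fun h => h1 (Fin.ext h)
        omega
      · intro h
        refine ⟨?_, by omega⟩
        rintro rfl
        omega
    have hbad : ∀ u : Fin m, ∃ (C : ℝ) (Bd : ℕ → Finset (Fin (n v) → ℤ)), 0 ≤ C ∧
        (∀ ρ : ℕ, 1 ≤ ρ →
          ((Bd ρ).card : ℝ) ≤ C * (ρ : ℝ) ^ (n v - ∑ e, d e v * ∑ i, d e i - 1)) ∧
        ∀ (ρ : ℕ) (z : Fin (n v) → ℤ), z ∈ bx (n v) ρ → z ≠ 0 → z ∉ Bd ρ →
          (v < u → LinearIndependent ℤ
            (fun e : BG.Eq d univ u => cf F e.1 u (Function.update (hP x y j) v z))) ∧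
          (u < v → LinearIndependent ℤ
            (fun e : BG.Eq d (Tj m (j + 1)) u => cf F e.1 u
              (Function.update (hR x x' y j u) v z))) := by
      intro u
      rcases lt_trichotomy u v with huv | huv | huv
      · obtain ⟨C, Bd, h1, h2, h3⟩ := bp_fin (hBP u v (ne_of_lt huv)) (Tj m (j + 1))
          (mem_Tj.2 (by rw [Fin.lt_def] at huv; omega)) (mem_Tj.2 (by omega))
          (hR x x' y j u) (hR0 u) (by
            rw [hTe]
            exact hyC u (by rw [Fin.lt_def] at huv; omega))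
        refine ⟨C, Bd, h1, h2, fun ρ z hz hz0 hz1 => ⟨fun h => ?_, fun _ => h3 ρ z hz hz0 hz1⟩⟩
        exact absurd h (lt_asymm huv)
      · refine ⟨0, fun _ => ∅, le_refl _, fun ρ _ => by simp, fun ρ z _ _ _ => ⟨fun h => ?_, fun h => ?_⟩⟩
        · rw [huv] at h
          exact absurd h (lt_irrefl _)
        · rw [huv] at h
          exact absurd h (lt_irrefl _)
      · obtain ⟨C, Bd, h1, h2, h3⟩ := bp_fin (hBP u v (ne_of_gt huv)) univ
          (mem_univ _) (mem_univ _) (hP x y j) hP0
          (li_mono (erase_subset _ _) (hyB u (by rw [Fin.lt_def] at huv; omega)))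
        refine ⟨C, Bd, h1, h2, fun ρ z hz hz0 hz1 => ⟨fun _ => h3 ρ z hz hz0 hz1, fun h => ?_⟩⟩
        exact absurd h (lt_asymm huv)
    choose C Bd hC hB hBm using hbad
    have hnv := hn v
    have hexp : n v - ∑ e, d e v * ∑ u, d e u = n v - ∑ e, d e v * ∑ i, d e i - 1 + 1 := by
      omega
    rw [hexp] at hG
    obtain ⟨ρ, hρ, z, hz, hz0, hzB⟩ := exists_good c hc G hG C Bd hB
    obtain ⟨hzx, hzE⟩ := hGm ρ z hz
    have hzE' : ∀ e w, d e v = 1 → d e w = 1 → cf F e v (mix x x' y v w) ⬝ᵥ z = 0 := by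
      intro e w hev hew
      have h1 := hzE (en.symm ⟨(e, w), hev, hew⟩)
      rw [Equiv.apply_symm_apply] at h1
      exact h1
    have hmix : ∀ v' w : Fin m, v' ≤ v → mix x x' (Function.update y v z) v' w = mix x x' y v' w := by
      intro v' w hvv
      funext u
      unfold BH.CH1.mix
      by_cases h1 : u ≤ w ∧ w < v'
      · rw [if_pos h1, if_pos h1]
      · rw [if_neg h1, if_neg h1]
        by_cases h2 : u < v'
        · rw [if_pos h2, if_pos h2, Function.update_of_ne (ne_of_lt (lt_of_lt_of_le h2 hvv))]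
        · rw [if_neg h2, if_neg h2]
    refine ⟨Function.update y v z, ?_, ?_, ?_, ?_, ?_⟩
    · intro v'
      by_cases hvv : v' = v
      · subst hvv
        rw [Function.update_self]
        exact hz0
      · rw [Function.update_of_ne hvv]
        exact hy0 v'
    · intro v' hv' e w hev hew
      by_cases hvv : v' = v
      · subst hvv
        rw [Function.update_self, hmix v' w (le_refl _)]
        exact hzE' e w hev hew
      · have hlt : (v' : ℕ) < j := by
          have : (v' : ℕ) ≠ (v : ℕ) := fun h => hvv (Fin.ext h)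
          omega
        rw [Function.update_of_ne hvv, hmix v' w (by rw [Fin.le_def]; omega)]
        exact hyE v' hlt e w hev hew
    · intro v' hv'
      have hold : LinearIndependent ℤ (fun e : BG.Eq d univ v' => cf F e.1 v' (hP x y v')) := by
        by_cases hlt : (v' : ℕ) < j
        · exact hyA v' hlt
        · have hvv : v' = v := Fin.ext (by omega)
          subst hvv
          have h1 := hyB v' (by omega)
          rwa [hv]
      refine li_congr hF (fun i _ _ => ?_) hold
      show (if (i : ℕ) < v' then y i else x i) = if (i : ℕ) < v' then Function.update y v z i else x i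
      split_ifs with h
      · rw [Function.update_of_ne]
        rintro rfl
        omega
      · rfl
    · intro u hu
      have h1 := (hBm u ρ z hzx hz0 (hzB u)).1 (by rw [Fin.lt_def]; omega)
      refine li_congr hF (fun i _ _ => ?_) h1
      by_cases hiv : i = v
      · subst hiv
        rw [Function.update_self]
        show _ = if (i : ℕ) < j + 1 then Function.update y i z i else x i
        rw [if_pos (by omega), Function.update_self]
      · rw [Function.update_of_ne hiv]
        have h3 : (i : ℕ) ≠ v := fun h => hiv (Fin.ext h)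
        show (if (i : ℕ) < j then y i else x i) =
          if (i : ℕ) < j + 1 then Function.update y v z i else x i
        rw [Function.update_of_ne hiv]
        by_cases h4 : (i : ℕ) < j
        · rw [if_pos h4, if_pos (by omega)]
        · rw [if_neg h4, if_neg (by omega)]
    · intro u hu
      by_cases huv : u = v
      · subst huv
        refine li_congr hF (fun i hiu hiT => ?_) (li_mono (subset_univ (Tj m (j + 1))) (hLx' u))
        have h3 : (i : ℕ) ≠ u := fun h => hiu (Fin.ext h)
        rw [mem_Tj] at hiT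
        show x' i = if (i : ℕ) < u then x' i else _
        rw [if_pos (by omega)]
      · have h3 : (u : ℕ) ≠ v := fun h => huv (Fin.ext h)
        have h1 := (hBm u ρ z hzx hz0 (hzB u)).2 (by rw [Fin.lt_def]; omega)
        refine li_congr hF (fun i hiu hiT => ?_) h1
        by_cases hiv : i = v
        · subst hiv
          rw [Function.update_self]
          show _ = if (i : ℕ) < u then x' i else if (i : ℕ) < j + 1 then
            Function.update y i z i else x i
          rw [if_neg (by omega), if_pos (by omega), Function.update_self]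
        · rw [Function.update_of_ne hiv]
          have h3 : (i : ℕ) ≠ v := fun h => hiv (Fin.ext h)
          show (if (i : ℕ) < u then x' i else if (i : ℕ) < j then y i else x i) =
            if (i : ℕ) < u then x' i else if (i : ℕ) < j + 1 then Function.update y v z i else x i
          rw [Function.update_of_ne hiv]
          by_cases h5 : (i : ℕ) < u
          · rw [if_pos h5, if_pos h5]
          · rw [if_neg h5, if_neg h5]
            by_cases h4 : (i : ℕ) < j
            · rw [if_pos h4, if_pos (by omega)]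
            · rw [if_neg h4, if_neg (by omega)]

/-- the chain -/
theorem chain {F : Fin K → MvPolynomial (Σ i, Fin (n i)) ℤ}
    {d : Fin K → Fin m → ℕ} (hF : ∀ e, MultiDeg (F e) (d e))
    (G : MvPolynomial (Σ i, Fin (n i)) ℤ) (l : List (Fin m)) (Q : ℕ → Pt n) (b : Pt n)
    (hQ : ∀ v : Fin m, Q (v + 1) = Function.update (Q v) v (b v))
    (hZ : ∀ j, j ≤ m → Zr F (Q j))
    (hLI : ∀ v : Fin m, LinearIndependent ℤ (fun e : BG.Eq d univ v => cf F e.1 v (Q v)))
    (hl : Gd (ι := fun v => BG.Eq d univ v) (fun v x e => cf F e.1 v x) G l (Q m)) :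
    Gd (ι := fun v => BG.Eq d univ v) (fun v x e => cf F e.1 v x) G
      (List.finRange m ++ l) (Q 0) := by
  have key : ∀ i j, i + j = m → Gd (ι := fun v => BG.Eq d univ v) (fun v x e => cf F e.1 v x) G
      ((List.finRange m).drop j ++ l) (Q j) := by
    intro i
    induction i with
    | zero =>
      intro j hj
      have hj' : j = m := by omega
      subst hj'
      rw [List.drop_of_length_le (by simp), List.nil_append]
      exact hl
    | succ i ih =>
      intro j hj
      have hjm : j < m := by omega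
      have e1 : (List.finRange m).drop j = ⟨j, hjm⟩ :: (List.finRange m).drop (j + 1) := by
        rw [List.drop_eq_getElem_cons (by simpa using hjm)]
        simp
      rw [e1, List.cons_append]
      have h2 := hQ ⟨j, hjm⟩
      refine ⟨hLI ⟨j, hjm⟩, b ⟨j, hjm⟩, ?_, ?_⟩
      · intro e
        have h3 := BG.S6.lin (hF e.1) e.2.2 (Q j) (b ⟨j, hjm⟩)
        rw [← h2] at h3
        have h4 := hZ (j + 1) (by omega) e.1
        rw [h4] at h3
        exact h3
      · rw [← h2]
        exact ih (j + 1) (by omega)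
  have := key m 0 (by omega)
  rwa [List.drop_zero] at this

end ModCH5

open ModCH5 in
/-- Module CH5. -/
theorem cH5 (hLC : StmtLC) : StmtCH5 := by
  classical
  intro m K n F d hd hF _ hn hBP G x' hx'0 hx'Z hLx' hG x hx0 hxZ hLx
  obtain ⟨y, hy0, hyEE, hyA, -, hyC⟩ := exists_y hLC F d hd hF hn hBP x x' hx0 hx'0 hLx hLx' m
    (le_refl m)
  -- the equations for `y`
  have hyE : ∀ e v w, d e v = 1 → d e w = 1 →
      evz (F e) (fl (Function.update (mix x x' y v w) v (y v))) = 0 := by
    intro e v w hv hw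
    have h1 := hyEE v v.2 e w hv hw
    rw [← BG.S6.lin (hF e) hv (mix x x' y v w) (y v)]
    exact h1
  have h1of : ∀ e v, d e v ≠ 0 → d e v = 1 := by
    intro e v h
    have := hd e v
    omega
  set P : ℕ → Pt n := fun j u => if (u : ℕ) < j then y u else x u with hP'
  set R : ℕ → Pt n := fun j u => if (u : ℕ) < j then x' u else y u with hR'
  have hPm : P m = R 0 := by
    funext u
    show (if (u : ℕ) < m then y u else x u) = if (u : ℕ) < 0 then x' u else y u
    rw [if_pos u.2, if_neg (Nat.not_lt_zero _)]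
  have hRm : R m = x' := by
    funext u
    show (if (u : ℕ) < m then x' u else y u) = x' u
    rw [if_pos u.2]
  have hP0 : P 0 = x := by
    funext u
    show (if (u : ℕ) < 0 then y u else x u) = x u
    rw [if_neg (Nat.not_lt_zero _)]
  have hPu : ∀ v : Fin m, P (v + 1) = Function.update (P v) v (y v) := by
    intro v
    funext u
    show (if (u : ℕ) < v + 1 then y u else x u) = _
    by_cases huv : u = v
    · subst huv
      rw [Function.update_self, if_pos (Nat.lt_succ_self _)]
    · rw [Function.update_of_ne huv]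
      show _ = if (u : ℕ) < v then y u else x u
      have h3 : (u : ℕ) ≠ v := fun h => huv (Fin.ext h)
      by_cases h4 : (u : ℕ) < v
      · rw [if_pos h4, if_pos (by omega)]
      · rw [if_neg h4, if_neg (by omega)]
  have hRu : ∀ v : Fin m, R (v + 1) = Function.update (R v) v (x' v) := by
    intro v
    funext u
    show (if (u : ℕ) < v + 1 then x' u else y u) = _
    by_cases huv : u = v
    · subst huv
      rw [Function.update_self, if_pos (Nat.lt_succ_self _)]
    · rw [Function.update_of_ne huv]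
      show _ = if (u : ℕ) < v then x' u else y u
      have h3 : (u : ℕ) ≠ v := fun h => huv (Fin.ext h)
      by_cases h4 : (u : ℕ) < v
      · rw [if_pos h4, if_pos (by omega)]
      · rw [if_neg h4, if_neg (by omega)]
  -- the points of the first chain
  have hPZ : ∀ j, j ≤ m → Zr F (P j) := by
    intro j _ e
    rcases (univ.filter fun v : Fin m => d e v ≠ 0 ∧ (v : ℕ) < j).eq_empty_or_nonempty with h | h
    · rw [dep (hF e) (P j) x (fun i hi => ?_)]
      · exact hxZ e
      · show (if (i : ℕ) < j then y i else x i) = x i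
        rw [if_neg]
        intro hij
        have : i ∈ (univ.filter fun v : Fin m => d e v ≠ 0 ∧ (v : ℕ) < j) := by
          rw [mem_filter]
          exact ⟨mem_univ _, hi, hij⟩
        rw [h] at this
        exact absurd this (Finset.notMem_empty _)
    · obtain ⟨v, hv, hmax⟩ := Finset.exists_max_image _ (fun v : Fin m => (v : ℕ)) h
      rw [mem_filter] at hv
      rw [← hyE e v v (h1of e v hv.2.1) (h1of e v hv.2.1)]
      refine dep (hF e) _ _ (fun i hi => ?_)
      show (if (i : ℕ) < j then y i else x i) = _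
      by_cases hiv : i = v
      · subst hiv
        rw [Function.update_self, if_pos hv.2.2]
      · rw [Function.update_of_ne hiv]
        have h3 : (i : ℕ) ≠ v := fun h => hiv (Fin.ext h)
        show _ = if i ≤ v ∧ v < v then x' i else if i < v then y i else x i
        rw [if_neg (show ¬(i ≤ v ∧ v < v) from fun h => lt_irrefl _ h.2)]
        by_cases hij : (i : ℕ) < j
        · have h4 := hmax i (by rw [mem_filter]; exact ⟨mem_univ _, hi, hij⟩)
          rw [if_pos hij, if_pos (by rw [Fin.lt_def]; omega)]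
        · rw [if_neg hij, if_neg (by rw [Fin.lt_def]; omega)]
  -- the points of the second chain
  have hRZ : ∀ j, j ≤ m → Zr F (R j) := by
    intro j _ e
    rcases (univ.filter fun v : Fin m => d e v ≠ 0 ∧ (v : ℕ) < j).eq_empty_or_nonempty with h | h
    · rw [dep (hF e) (R j) (R 0) (fun i hi => ?_)]
      · rw [← hPm]
        exact hPZ m (le_refl m) e
      · show (if (i : ℕ) < j then x' i else y i) = if (i : ℕ) < 0 then x' i else y i
        rw [if_neg, if_neg (Nat.not_lt_zero _)]
        intro hij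
        have : i ∈ (univ.filter fun v : Fin m => d e v ≠ 0 ∧ (v : ℕ) < j) := by
          rw [mem_filter]
          exact ⟨mem_univ _, hi, hij⟩
        rw [h] at this
        exact absurd this (Finset.notMem_empty _)
    · obtain ⟨w, hw, hmax⟩ := Finset.exists_max_image _ (fun v : Fin m => (v : ℕ)) h
      rw [mem_filter] at hw
      obtain ⟨v, hv, hvmax⟩ := Finset.exists_max_image (univ.filter fun v : Fin m => d e v ≠ 0)
        (fun v : Fin m => (v : ℕ)) ⟨w, by rw [mem_filter]; exact ⟨mem_univ _, hw.2.1⟩⟩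
      rw [mem_filter] at hv
      have hwv := hvmax w (by rw [mem_filter]; exact ⟨mem_univ _, hw.2.1⟩)
      by_cases hvj : (v : ℕ) < j
      · rw [dep (hF e) (R j) x' (fun i hi => ?_)]
        · exact hx'Z e
        · have h4 := hvmax i (by rw [mem_filter]; exact ⟨mem_univ _, hi⟩)
          show (if (i : ℕ) < j then x' i else y i) = x' i
          rw [if_pos (by omega)]
      · rw [← hyE e v w (h1of e v hv.2) (h1of e w hw.2.1)]
        refine dep (hF e) _ _ (fun i hi => ?_)
        have h4 := hvmax i (by rw [mem_filter]; exact ⟨mem_univ _, hi⟩)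
        show (if (i : ℕ) < j then x' i else y i) = _
        by_cases hiv : i = v
        · subst hiv
          rw [Function.update_self, if_neg hvj]
        · rw [Function.update_of_ne hiv]
          have h3 : (i : ℕ) ≠ v := fun h => hiv (Fin.ext h)
          show _ = if i ≤ w ∧ w < v then x' i else if i < v then y i else x i
          by_cases hij : (i : ℕ) < j
          · have h5 := hmax i (by rw [mem_filter]; exact ⟨mem_univ _, hi, hij⟩)
            rw [if_pos hij, if_pos]
            rw [Fin.le_def, Fin.lt_def]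
            omega
          · rw [if_neg hij, if_neg, if_pos (by rw [Fin.lt_def]; omega)]
            rw [Fin.le_def, Fin.lt_def]
            omega
  have hRL : ∀ v : Fin m, LinearIndependent ℤ (fun e : BG.Eq d univ v => cf F e.1 v (R v)) := by
    intro v
    have hTm : Tj m m = univ := by
      ext w
      rw [mem_Tj]
      exact ⟨fun _ => mem_univ _, fun _ => w.2⟩
    have h1 := hyC v v.2
    rw [hTm] at h1
    refine li_congr hF (fun i _ _ => ?_) h1
    show (if (i : ℕ) < v then x' i else if (i : ℕ) < m then y i else x i) =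
      if (i : ℕ) < v then x' i else y i
    rw [if_pos i.2]
  have hend : Gd (ι := fun v => BG.Eq d univ v) (fun v x e => cf F e.1 v x) G [] (R m) := by
    show evz G (fl (R m)) ≠ 0
    rw [hRm]
    exact hG
  have hmid := chain hF G [] R x' hRu hRZ hRL hend
  rw [List.append_nil, ← hPm] at hmid
  have := chain hF G (List.finRange m) P y hPu hPZ (fun v => hyA v v.2) hmid
  rwa [hP0] at this

end Pool.Agent.T6.H81.BN
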