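import Pool.Agent.T6.H81.BN.Defs

/-! Module LC (helper24): a lower bound for the number of the points of a lattice. -/

set_option autoImplicit false

namespace Pool.Agent.T6.H81.BN

open Finset Module Matrix
open Pool.Agent.H548.WM (ht bx mem_bx Rep card_bx)
open Pool.Agent.H548.BL (lat)

namespace ModLC

theorem hmb {m X : ℕ} {v : Fin m → ℤ} : v ∈ bx m X ↔ ∀ i, -(X : ℤ) ≤ v i ∧ v i ≤ X := by
  unfold bx
  rw [Fintype.mem_piFinset]
  simp only [mem_Icc]

end ModLC

open Classical ModLC in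
theorem lC : StmtLC := by
  intro k N A
  set H : ℕ := (∑ i, ∑ j, (A i j).natAbs) + 1 with hH
  have hH1 : (1 : ℝ) ≤ H := by
    rw [hH]
    push_cast
    have : (0 : ℝ) ≤ ∑ i, ∑ j, ((A i j).natAbs : ℝ) := by positivity
    linarith
  refine ⟨1 / (2 * (H : ℝ)) ^ k, by positivity, fun ρ hρ => ?_⟩
  set M := ((bx N ρ).filter fun z => z ∈ lat A).card with hM
  have h1 : 1 ≤ M := by
    rw [hM]
    apply Finset.card_pos.2
    refine ⟨0, mem_filter.2 ⟨hmb.2 fun i => ?_, (lat A).zero_mem⟩⟩
    simp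
  have hMr : (1 : ℝ) ≤ M := by exact_mod_cast h1
  by_cases hk : k ≤ N
  · set ρ' := ρ / 2 with hρ'
    have hmaps : ∀ w ∈ bx N ρ', (fun i => A i ⬝ᵥ w) ∈ bx k (H * ρ') := by
      intro w hw
      rw [hmb] at hw ⊢
      intro i
      have h2 : |A i ⬝ᵥ w| ≤ ((H * ρ' : ℕ) : ℤ) := by
        calc |A i ⬝ᵥ w| ≤ ∑ j, |A i j * w j| := Finset.abs_sum_le_sum_abs _ _
          _ ≤ ∑ j, |A i j| * (ρ' : ℤ) := by
              refine Finset.sum_le_sum fun j _ => ?_
              rw [abs_mul]
              exact mul_le_mul_of_nonneg_left (abs_le.2 (hw j)) (abs_nonneg _)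
          _ = (∑ j, |A i j|) * (ρ' : ℤ) := by rw [Finset.sum_mul]
          _ ≤ (H : ℤ) * (ρ' : ℤ) := by
              refine mul_le_mul_of_nonneg_right ?_ (by positivity)
              have h3 : ∑ j, (A i j).natAbs ≤ ∑ i, ∑ j, (A i j).natAbs :=
                Finset.single_le_sum (f := fun i => ∑ j, (A i j).natAbs)
                  (fun _ _ => Nat.zero_le _) (mem_univ i)
              have h4 : ∑ j, |A i j| = ((∑ j, (A i j).natAbs : ℕ) : ℤ) := by
                push_cast
                rfl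
              rw [h4]
              have h5 : ∑ j, (A i j).natAbs ≤ H := by omega
              exact_mod_cast h5
          _ = ((H * ρ' : ℕ) : ℤ) := by push_cast; ring
      exact abs_le.1 h2
    have hfib : ∀ y ∈ bx k (H * ρ'),
        ((bx N ρ').filter fun w => (fun i => A i ⬝ᵥ w) = y).card ≤ M := by
      intro y _
      rcases ((bx N ρ').filter fun w => (fun i => A i ⬝ᵥ w) = y).eq_empty_or_nonempty with he | hne
      · rw [he, card_empty]
        exact Nat.zero_le _
      · obtain ⟨w0, hw0⟩ := hne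
        rw [mem_filter] at hw0
        apply Finset.card_le_card_of_injOn (fun w => w - w0)
        · intro w hw
          rw [mem_coe, mem_filter] at hw
          rw [mem_coe, mem_filter]
          refine ⟨hmb.2 fun i => ?_, fun i => ?_⟩
          · have h3 := hmb.1 hw.1 i
            have h4 := hmb.1 hw0.1 i
            have h5 : 2 * (ρ' : ℤ) ≤ ρ := by
              have : 2 * ρ' ≤ ρ := by omega
              exact_mod_cast this
            show -(ρ : ℤ) ≤ w i - w0 i ∧ w i - w0 i ≤ ρ
            constructor <;> linarith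
          · show A i ⬝ᵥ (w - w0) = 0
            have h3 : A i ⬝ᵥ w = y i := congrFun hw.2 i
            have h4 : A i ⬝ᵥ w0 = y i := congrFun hw0.2 i
            rw [dotProduct_sub, h3, h4, sub_self]
        · intro w _ w' _ h
          exact sub_left_injective h
    have hcard := Finset.card_le_mul_card_image_of_maps_to hmaps M hfib
    rw [card_bx, card_bx] at hcard
    have hρr : (1 : ℝ) ≤ ρ := by exact_mod_cast hρ
    have h2 : (ρ : ℝ) ≤ 2 * (ρ' : ℝ) + 1 := by
      have : ρ ≤ 2 * ρ' + 1 := by omega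
      exact_mod_cast this
    have h2' : 2 * (ρ' : ℝ) ≤ ρ := by
      have : 2 * ρ' ≤ ρ := by omega
      exact_mod_cast this
    have h3 : (2 * (ρ' : ℝ) + 1) ^ N ≤ M * (2 * (H * ρ' : ℝ) + 1) ^ k := by exact_mod_cast hcard
    have h4 : (ρ : ℝ) ^ N ≤ (2 * (ρ' : ℝ) + 1) ^ N := pow_le_pow_left₀ (by linarith) h2 N
    have h5 : (2 * (H * ρ' : ℝ) + 1) ^ k ≤ (2 * H * ρ) ^ k := by
      apply pow_le_pow_left₀ (by positivity)
      nlinarith
    have h6 : (ρ : ℝ) ^ (N - k) * (ρ : ℝ) ^ k ≤ (M * (2 * (H : ℝ)) ^ k) * (ρ : ℝ) ^ k := by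
      rw [← pow_add, Nat.sub_add_cancel hk, mul_assoc, ← mul_pow]
      exact h4.trans (h3.trans (mul_le_mul_of_nonneg_left h5 (by positivity)))
    have h7 : (ρ : ℝ) ^ (N - k) ≤ M * (2 * (H : ℝ)) ^ k :=
      le_of_mul_le_mul_right h6 (by positivity)
    rw [one_div, inv_mul_le_iff₀ (by positivity), mul_comm]
    exact h7
  · rw [Nat.sub_eq_zero_of_le (by omega), pow_zero, mul_one]
    have h2 : 1 / (2 * (H : ℝ)) ^ k ≤ 1 := by
      rw [div_le_one (by positivity)]
      exact one_le_pow₀ (by linarith)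
    exact h2.trans hMr

end Pool.Agent.T6.H81.BN
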