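import Mathlib
import Pool.Agent.T6.H81.BN.Defs
import Pool.Agent.T6.H81.BG.S5

/-!
Systems of multilinear equations in products of projective spaces: a point with integer
coordinates at which the forms of every block are linearly independent.
-/

set_option autoImplicit false

namespace Pool.Agent.T6.H81.BN

open Finset Module Matrix
open Pool.Agent.H548.WM (ht bx mem_bx Rep)
open Pool.Agent.H548.BL (lat mem_lat)
open Pool.Agent.H548.TL (evz)
open Pool.Agent.T6.H5.TW (fl MultiDeg)
open Pool.Agent.T6.H81.BG (Pt Zr cf Eq PT BadB)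
open Pool.Agent.T6.H81.BG.S5 (eq_lin eq_indep cf_self)

namespace ModNI

open Classical in
/-- The lower bound for a family with any finite index type. -/
theorem lc_fin (hLC : StmtLC) {ι : Type} [Fintype ι] {N : ℕ} (A : ι → Fin N → ℤ) :
    ∃ c : ℝ, 0 < c ∧ ∀ ρ : ℕ, 1 ≤ ρ →
      c * (ρ : ℝ) ^ (N - Fintype.card ι) ≤
        ((((bx N ρ).filter fun z => z ∈ lat A).card : ℕ) : ℝ) := by
  obtain ⟨c, hc, h⟩ := hLC (Fintype.card ι) N (A ∘ (Fintype.equivFin ι).symm)
  refine ⟨c, hc, fun ρ hρ => ?_⟩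
  have h1 := h ρ hρ
  have h2 : ((bx N ρ).filter fun z => z ∈ lat (A ∘ (Fintype.equivFin ι).symm)) =
      (bx N ρ).filter fun z => z ∈ lat A := by
    apply Finset.filter_congr
    intro z _
    rw [mem_lat, mem_lat]
    constructor
    · intro hz i
      have := hz (Fintype.equivFin ι i)
      simpa using this
    · intro hz i
      exact hz _
  rw [← h2]
  exact h1

/-- The conditions at the stage `j`. -/
def St {m K : ℕ} {n : Fin m → ℕ} (F : Fin K → MvPolynomial (Σ i, Fin (n i)) ℤ)
    (d : Fin K → Fin m → ℕ) (j : ℕ) (x : Pt n) : Prop :=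
  (∀ i, x i ≠ 0) ∧ (∀ e, (∀ i : Fin m, j ≤ (i : ℕ) → d e i = 0) → evz (F e) (fl x) = 0) ∧
    ∀ (u : Fin m) (T : Finset (Fin m)), (∀ i, i ∈ T ↔ (i = u ∨ (i : ℕ) < j)) →
      LinearIndependent ℤ (fun e : Eq d T u => cf F e.1 u x)

variable {m K : ℕ} {n : Fin m → ℕ} {F : Fin K → MvPolynomial (Σ i, Fin (n i)) ℤ}
  {d : Fin K → Fin m → ℕ}

theorem card_le (hd : ∀ e v, d e v ≤ 1) (T : Finset (Fin m)) (v : Fin m) :
    Fintype.card (Eq d T v) ≤ ∑ e, d e v * ∑ i, d e i := by
  have := BG.S5.card_bound hd T v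
  omega

theorem start (h2 : ∀ e, 2 ≤ ∑ v, d e v) (hn : ∀ v, 0 < n v) : ∃ x : Pt n, St F d 0 x := by
  refine ⟨fun i => Pi.single ⟨0, hn i⟩ 1, ?_, ?_, ?_⟩
  · intro i h0
    have := congrFun h0 ⟨0, hn i⟩
    simp at this
  · intro e he
    exfalso
    have h := h2 e
    have h3 : ∑ v, d e v = 0 := Finset.sum_eq_zero fun i _ => he i (Nat.zero_le _)
    omega
  · intro u T hT
    have hemp : IsEmpty (Eq d T u) := by
      constructor
      rintro ⟨e, he, heu⟩
      have h := h2 e
      have h3 : ∑ v, d e v = d e u := by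
        apply Finset.sum_eq_single u
        · intro i _ hiu
          apply he
          rw [hT]
          rintro (h | h)
          · exact hiu h
          · omega
        · simp
      omega
    exact linearIndependent_empty_type

open Classical in
theorem step (hLC : StmtLC) (hd : ∀ e v, d e v ≤ 1) (hF : ∀ e, MultiDeg (F e) (d e))
    (hn : ∀ v, ∑ e, d e v * ∑ u, d e u + 1 ≤ n v) (hBP : ∀ u v, u ≠ v → BP F d u v)
    {j : ℕ} (hj : j < m) (x : Pt n) (hx : St F d j x) : ∃ x' : Pt n, St F d (j + 1) x' := by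
  obtain ⟨hx0, hxa, hxb⟩ := hx
  set v : Fin m := ⟨j, hj⟩ with hv
  set T : Finset (Fin m) := univ.filter fun i => (i : ℕ) < j + 1 with hT
  have hvT : v ∈ T := by
    rw [hT, mem_filter]
    exact ⟨mem_univ _, Nat.lt_succ_self j⟩
  have hTv : ∀ i, i ∈ T ↔ (i = v ∨ (i : ℕ) < j) := by
    intro i
    rw [hT, mem_filter, Fin.ext_iff]
    simp only [mem_univ, true_and, hv]
    omega
  have hmT : ∀ i, i ∈ T ↔ (i : ℕ) < j + 1 := by
    intro i
    rw [hT, mem_filter]
    simp
  -- the lattice
  obtain ⟨c, hc, hlat⟩ := lc_fin hLC (fun e : Eq d T v => cf F e.1 v x)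
  -- the bad vectors
  have hbad : ∀ u : Fin m, u ≠ v → ∃ C : ℝ, 0 ≤ C ∧ ∀ ρ : ℕ, 1 ≤ ρ →
      ((((bx (n v) ρ).filter fun z => z ≠ 0 ∧ ¬ LinearIndependent ℤ
        (fun e : Eq d (insert u T) u => cf F e.1 u (Function.update x v z))).card : ℕ) : ℝ) ≤
        C * (ρ : ℝ) ^ (n v - ∑ e, d e v * ∑ i, d e i - 1) := by
    intro u huv
    obtain ⟨C, hC, h⟩ := hBP u v huv
    refine ⟨C, hC, fun ρ hρ => ?_⟩
    refine h (insert u T) (mem_insert_self _ _) (mem_insert_of_mem hvT) x hx0 ?_ ρ hρ
    apply hxb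
    intro i
    rw [mem_erase, mem_insert, hmT]
    constructor
    · rintro ⟨h1, h2 | h2⟩
      · exact Or.inl h2
      · right
        have : (i : ℕ) ≠ j := fun h => h1 (Fin.ext h)
        omega
    · rintro (h1 | h1)
      · exact ⟨h1 ▸ huv, Or.inl h1⟩
      · refine ⟨fun h => ?_, Or.inr (by omega)⟩
        rw [h] at h1
        exact absurd h1 (lt_irrefl _)
  choose! C hC0 hC using hbad
  set s := ∑ e, d e v * ∑ i, d e i with hs
  set Ct : ℝ := ∑ u ∈ univ.erase v, C u with hCt
  have hCt0 : 0 ≤ Ct := Finset.sum_nonneg fun u hu => hC0 u (Finset.ne_of_mem_erase hu)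
  obtain ⟨ρ, hρ⟩ := exists_nat_gt ((1 + Ct) / c)
  have hρ0 : (0 : ℝ) < ρ := lt_of_le_of_lt (by positivity) hρ
  have hρ1 : 1 ≤ ρ := by
    have : 0 < ρ := by exact_mod_cast hρ0
    omega
  have hρ1' : (1 : ℝ) ≤ ρ := by exact_mod_cast hρ1
  have hnv := hn v
  have hcard := card_le hd T v
  -- a good vector
  have hex : ∃ z ∈ bx (n v) ρ, z ∈ lat (fun e : Eq d T v => cf F e.1 v x) ∧ z ≠ 0 ∧
      ∀ u, u ≠ v → LinearIndependent ℤ
        (fun e : Eq d (insert u T) u => cf F e.1 u (Function.update x v z)) := by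
    by_contra hcon
    push Not at hcon
    have hsub : ((bx (n v) ρ).filter fun z => z ∈ lat (fun e : Eq d T v => cf F e.1 v x)) ⊆
        {0} ∪ (univ.erase v).biUnion fun u => (bx (n v) ρ).filter fun z => z ≠ 0 ∧
          ¬ LinearIndependent ℤ
            (fun e : Eq d (insert u T) u => cf F e.1 u (Function.update x v z)) := by
      intro z hz
      rw [mem_filter] at hz
      rw [mem_union, mem_singleton, mem_biUnion]
      by_cases hz0 : z = 0
      · exact Or.inl hz0
      · obtain ⟨u, huv, hu⟩ := hcon z hz.1 hz.2 hz0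
        exact Or.inr ⟨u, mem_erase.2 ⟨huv, mem_univ _⟩, mem_filter.2 ⟨hz.1, hz0, hu⟩⟩
    have h1 := hlat ρ hρ1
    have h2 : ((((bx (n v) ρ).filter fun z =>
        z ∈ lat (fun e : Eq d T v => cf F e.1 v x)).card : ℕ) : ℝ) ≤
        1 + ∑ u ∈ univ.erase v, ((((bx (n v) ρ).filter fun z => z ≠ 0 ∧
          ¬ LinearIndependent ℤ (fun e : Eq d (insert u T) u =>
            cf F e.1 u (Function.update x v z))).card : ℕ) : ℝ) := by
      have h3 := (card_le_card hsub).trans ((card_union_le _ _).trans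
        (Nat.add_le_add_left card_biUnion_le _))
      rw [card_singleton] at h3
      exact_mod_cast h3
    have h3 : ∑ u ∈ univ.erase v, ((((bx (n v) ρ).filter fun z => z ≠ 0 ∧
          ¬ LinearIndependent ℤ (fun e : Eq d (insert u T) u =>
            cf F e.1 u (Function.update x v z))).card : ℕ) : ℝ) ≤
        Ct * (ρ : ℝ) ^ (n v - s - 1) := by
      rw [hCt, Finset.sum_mul]
      exact Finset.sum_le_sum fun u hu => hC u (Finset.ne_of_mem_erase hu) ρ hρ1
    have h4 : (ρ : ℝ) ^ (n v - s) ≤ (ρ : ℝ) ^ (n v - Fintype.card (Eq d T v)) :=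
      pow_le_pow_right₀ hρ1' (by omega)
    have h5 : (ρ : ℝ) ^ (n v - s) = ρ * (ρ : ℝ) ^ (n v - s - 1) := by
      rw [← pow_succ']
      congr 1
      omega
    have h6 : (1 : ℝ) ≤ (ρ : ℝ) ^ (n v - s - 1) := one_le_pow₀ hρ1'
    have h7 : 1 + Ct < c * ρ := by
      rw [div_lt_iff₀ hc] at hρ
      linarith
    have h8 : c * (ρ : ℝ) ^ (n v - s) ≤ c * (ρ : ℝ) ^ (n v - Fintype.card (Eq d T v)) :=
      mul_le_mul_of_nonneg_left h4 hc.le
    have h9 : (1 + Ct) * (ρ : ℝ) ^ (n v - s - 1) < c * ρ * (ρ : ℝ) ^ (n v - s - 1) :=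
      mul_lt_mul_of_pos_right h7 (by linarith)
    rw [h5] at h8
    nlinarith
  obtain ⟨z, -, hzl, hz0, hzu⟩ := hex
  refine ⟨Function.update x v z, ?_, ?_, ?_⟩
  · intro i
    by_cases hiv : i = v
    · subst hiv
      rw [Function.update_self]
      exact hz0
    · rw [Function.update_of_ne hiv]
      exact hx0 i
  · intro e he
    by_cases hev : d e v = 0
    · rw [eq_indep hF hev]
      apply hxa e
      intro i hi
      by_cases hiv : i = v
      · rw [hiv]
        exact hev
      · apply he i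
        have : (i : ℕ) ≠ j := fun h => hiv (Fin.ext h)
        omega
    · have h1 : d e v = 1 := by
        have := hd e v
        omega
      rw [eq_lin hF h1]
      refine hzl ⟨e, ?_, h1⟩
      intro i hi
      apply he
      rw [hmT] at hi
      omega
  · intro u T' hT'
    by_cases huv : u = v
    · have hTT : T' = T := by
        ext i
        rw [hT', hmT, huv]
        constructor
        · rintro (h | h)
          · rw [h]
            exact Nat.lt_succ_self j
          · exact h
        · intro h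
          exact Or.inr h
      subst huv
      rw [hTT]
      have : (fun e : Eq d T v => cf F e.1 v (Function.update x v z)) =
          (fun e : Eq d T v => cf F e.1 v x) := by
        funext e
        exact cf_self e.1 v x z
      rw [this]
      exact hxb v T hTv
    · have hTT : T' = insert u T := by
        ext i
        rw [hT', mem_insert, hmT]
      rw [hTT]
      exact hzu u huv

end ModNI

open ModNI in
theorem nI (hLC : StmtLC) : StmtNI := by
  intro m K n F d hd hF h2 hn hBP
  have key : ∀ j, j ≤ m → ∃ x : Pt n, St F d j x := by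
    intro j
    induction j with
    | zero =>
      intro _
      exact start h2 fun v => by
        have := hn v
        omega
    | succ j ih =>
      intro hj
      obtain ⟨x, hx⟩ := ih (by omega)
      exact step hLC hd hF hn hBP (by omega) x hx
  obtain ⟨x, hx0, hxa, hxb⟩ := key m le_rfl
  refine ⟨x, fun u _ => hx0 u, fun e _ => hxa e fun i hi => absurd i.2 (by omega), fun u _ => ?_⟩
  apply hxb u univ
  intro i
  simp only [mem_univ, true_iff]
  exact Or.inr i.2

end Pool.Agent.T6.H81.BN
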