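import Mathlib
import Pool.Agent.T6.H81.BN.Defs
import Pool.Agent.T6.H81.BG.S5
import Pool.Agent.T6.H81.BJ.MR0

/-! Module PM: a polynomial of type `(1, 1)` in two of the blocks as a matrix. -/

set_option autoImplicit false

namespace Pool.Agent.T6.H81.BN

open Finset Module Matrix
open Pool.Agent.H548.TL (evz evz_map)
open Pool.Agent.T6.H5.TW (fl MultiDeg)
open Pool.Agent.T6.H81.BG (Pt Zr cf)

namespace PMx

variable {m : ℕ} {n : Fin m → ℕ} {u v : Fin m}

/-- the point with the given two blocks, the other blocks are zero -/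
def pt {R : Type*} [CommRing R] (n : Fin m → ℕ) (u v : Fin m) (a : Fin (n u) → R)
    (b : Fin (n v) → R) : ∀ i, Fin (n i) → R :=
  Function.update (Function.update (fun _ _ => 0) u a) v b

theorem pt_u {R : Type*} [CommRing R] (huv : u ≠ v) (a : Fin (n u) → R) (b : Fin (n v) → R) :
    pt n u v a b u = a := by
  unfold pt
  rw [Function.update_of_ne huv, Function.update_self]

theorem pt_v {R : Type*} [CommRing R] (a : Fin (n u) → R) (b : Fin (n v) → R) :
    pt n u v a b v = b := by
  unfold pt
  rw [Function.update_self]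

theorem upd_u {R : Type*} [CommRing R] (huv : u ≠ v) (a a' : Fin (n u) → R)
    (b : Fin (n v) → R) : Function.update (pt n u v a b) u a' = pt n u v a' b := by
  unfold pt
  rw [Function.update_comm huv.symm, Function.update_idem]

theorem upd_v {R : Type*} [CommRing R] (a : Fin (n u) → R)
    (b b' : Fin (n v) → R) : Function.update (pt n u v a b) v b' = pt n u v a b' := by
  unfold pt
  rw [Function.update_idem]

theorem main {p : MvPolynomial (Σ i, Fin (n i)) ℤ} {δ : Fin m → ℕ} (huv : u ≠ v)
    (h : MultiDeg p δ) (hu : δ u = 1) (hv : δ v = 1) (hs : ∑ i, δ i = 2) (R : Type) [CommRing R]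
    (x : ∀ i, Fin (n i) → R) :
    evz p (fl x) = x u ⬝ᵥ ((Matrix.of fun i j => evz p (fl (pt (R := ℤ) n u v (Pi.single i 1)
      (Pi.single j 1)))).map (Int.cast : ℤ → R) *ᵥ x v) := by
  have hx : evz p (fl x) = evz p (fl (pt n u v (x u) (x v))) := by
    apply BG.S5.indep h
    intro i hi
    by_cases h1 : i = v
    · subst h1
      rw [pt_v]
    by_cases h2 : i = u
    · subst h2
      rw [pt_u huv]
    exfalso
    have h3 : δ u + δ v + δ i ≤ ∑ i, δ i := by
      have h4 : ∑ j ∈ ({u, v, i} : Finset (Fin m)), δ j ≤ ∑ j, δ j :=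
        Finset.sum_le_sum_of_subset (subset_univ _)
      rw [Finset.sum_insert (by simp [huv, Ne.symm h2]), Finset.sum_pair (Ne.symm h1)] at h4
      omega
    omega
  have h0 : ∀ a b, evz p (fl (pt (R := R) n u v a b)) =
      ∑ s, evz p (fl (pt (R := R) n u v (Pi.single s 1) b)) * a s := by
    intro a b
    have := BG.S5.evz_lin h hu (pt n u v a b) a
    simp only [upd_u huv] at this
    exact this
  have h1 : ∀ a b, evz p (fl (pt (R := R) n u v a b)) =
      ∑ s, evz p (fl (pt (R := R) n u v a (Pi.single s 1))) * b s := by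
    intro a b
    have := BG.S5.evz_lin h hv (pt n u v a b) b
    simp only [upd_v] at this
    exact this
  have hc : ∀ i j, evz p (fl (pt (R := R) n u v (Pi.single i 1) (Pi.single j 1))) =
      ((evz p (fl (pt (R := ℤ) n u v (Pi.single i 1) (Pi.single j 1))) : ℤ) : R) := by
    intro i j
    have := evz_map (Int.castRingHom R) p (fl (pt (R := ℤ) n u v (Pi.single i 1)
      (Pi.single j 1)))
    rw [eq_intCast] at this
    rw [this]
    congr 1
    have hs' : ∀ (N : ℕ) (q q' : Fin N), (Pi.single q (1 : R) : Fin N → R) q' =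
        (Int.castRingHom R) ((Pi.single q (1 : ℤ) : Fin N → ℤ) q') := by
      intro N q q'
      by_cases hq : q' = q
      · subst hq
        simp
      · rw [Pi.single_eq_of_ne hq, Pi.single_eq_of_ne hq, map_zero]
    funext q
    obtain ⟨w, t⟩ := q
    show pt (R := R) n u v (Pi.single i 1) (Pi.single j 1) w t =
      (Int.castRingHom R) (pt (R := ℤ) n u v (Pi.single i 1) (Pi.single j 1) w t)
    by_cases hwv : w = v
    · subst hwv
      rw [pt_v, pt_v]
      exact hs' _ _ _
    by_cases hwu : w = u
    · subst hwu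
      rw [pt_u huv, pt_u huv]
      exact hs' _ _ _
    unfold pt
    rw [Function.update_of_ne hwv, Function.update_of_ne hwu, Function.update_of_ne hwv,
      Function.update_of_ne hwu, map_zero]
  rw [hx, h0]
  unfold dotProduct mulVec dotProduct
  refine Finset.sum_congr rfl fun i _ => ?_
  rw [h1, Finset.sum_mul, Finset.mul_sum]
  refine Finset.sum_congr rfl fun j _ => ?_
  rw [hc]
  show _ = x u i * (((evz p (fl (pt (R := ℤ) n u v (Pi.single i 1) (Pi.single j 1))) : ℤ) : R)
    * x v j)
  ring

end PMx

open PMx in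
/-- Module PM. -/
theorem pM : StmtPM := by
  intro m n p δ u v huv h hu hv hs
  refine ⟨Matrix.of fun i j => evz p (fl (pt (R := ℤ) n u v (Pi.single i 1)
      (Pi.single j 1))), fun R _ x => ⟨main huv h hu hv hs R x, ?_, ?_⟩⟩
  · funext s
    rw [main huv h hu hv hs R, Function.update_self, Function.update_of_ne huv.symm,
      single_one_dotProduct]
  · funext s
    rw [main huv h hu hv hs R, Function.update_self, Function.update_of_ne huv,
      dotProduct_mulVec, dotProduct_single_one]

end Pool.Agent.T6.H81.BN
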