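import Pool.Agent.T6.H81.BN.Defs
import Pool.Agent.T6.H81.BG.S5

/-!
Module SS: the systems of the pairs of blocks of a smooth complete intersection.
-/

set_option autoImplicit false

namespace Pool.Agent.T6.H81.BN

open Finset Module Matrix
open Pool.Agent.H548.TL (evz)
open Pool.Agent.T6.H5.TW (fl MultiDeg)
open Pool.Agent.T6.H81.BG (Pt Zr cf)

namespace SSm

variable {m K : ℕ} {n : Fin m → ℕ} {F : Fin K → MvPolynomial (Σ i, Fin (n i)) ℤ}
  {d : Fin K → Fin m → ℕ}

/-- the numbers of the blocks of an equation -/
theorem two_blocks (hd : ∀ e v, d e v ≤ 1) {e : Fin K} (hsum : ∑ v, d e v = 2) {u v : Fin m}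
    (huv : u ≠ v) (hu : d e u = 1) (hv : d e v = 1) {w : Fin m} (hwu : w ≠ u) (hwv : w ≠ v) :
    d e w = 0 := by
  classical
  by_contra hcon
  have h1 : d e w = 1 := by
    have := hd e w
    omega
  have h2 : ∑ i ∈ ({u, v, w} : Finset (Fin m)), d e i ≤ ∑ i, d e i :=
    Finset.sum_le_sum_of_subset (subset_univ _)
  rw [Finset.sum_insert (by simp [huv, hwu.symm]), Finset.sum_insert (by simp [hwv.symm]),
    Finset.sum_singleton, hsum] at h2
  omega

theorem card_lt (hn : ∀ v, ∑ e, d e v + 1 ≤ n v) (w : Fin m) :
    Fintype.card {e : Fin K // d e w = 1} < n w := by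
  classical
  have h1 : Fintype.card {e : Fin K // d e w = 1} ≤ ∑ e, d e w := by
    rw [Fintype.card_subtype, Finset.card_filter]
    refine Finset.sum_le_sum fun e _ => ?_
    split_ifs with h
    · rw [h]
    · exact Nat.zero_le _
  have := hn w
  omega

/-- a vector of the block `w` which satisfies all equations which contain it -/
theorem exists_vec (hn : ∀ v, ∑ e, d e v + 1 ≤ n v) (w : Fin m) (y : ∀ i, Fin (n i) → ℂ) :
    ∃ q : Fin (n w) → ℂ, q ≠ 0 ∧ ∀ e, d e w = 1 → ∑ s, cf F e w y s * q s = 0 := by
  classical
  set A : Matrix {e : Fin K // d e w = 1} (Fin (n w)) ℂ := Matrix.of fun e s => cf F e.1 w y s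
    with hA
  have hker : LinearMap.ker A.mulVecLin ≠ ⊥ := by
    apply LinearMap.ker_ne_bot_of_finrank_lt
    rw [Module.finrank_pi, Module.finrank_pi, Fintype.card_fin]
    exact card_lt hn w
  obtain ⟨q, hq, hq0⟩ := Submodule.exists_mem_ne_zero_of_ne_bot hker
  refine ⟨q, hq0, fun e he => ?_⟩
  rw [LinearMap.mem_ker] at hq
  have := congrFun hq ⟨e, he⟩
  exact this

/-- the completion of a point of two blocks -/
theorem exists_ext (hd : ∀ e v, d e v ≤ 1) (hF : ∀ e, MultiDeg (F e) (d e))
    (hsum : ∀ e, 2 ≤ ∑ v, d e v) (hn : ∀ v, ∑ e, d e v + 1 ≤ n v) {u v : Fin m} (huv : u ≠ v)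
    (z : ∀ i, Fin (n i) → ℂ) (hzu : z u ≠ 0) (hzv : z v ≠ 0)
    (hz : ∀ e, d e u = 1 → d e v = 1 → evz (F e) (fl z) = 0) (T : Finset (Fin m)) :
    u ∉ T → v ∉ T → ∃ y : ∀ i, Fin (n i) → ℂ, y u = z u ∧ y v = z v ∧ (∀ w ∈ T, y w ≠ 0) ∧
      ∀ e, (∀ i, i ∉ T → i ≠ u → i ≠ v → d e i = 0) → evz (F e) (fl y) = 0 := by
  classical
  induction T using Finset.induction_on with
  | empty =>
    intro _ _
    refine ⟨z, rfl, rfl, by simp, fun e he => ?_⟩
    have h0 : ∀ i, i ≠ u → i ≠ v → d e i = 0 := fun i h1 h2 => he i (by simp) h1 h2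
    have h1 : ∑ i, d e i = d e u + d e v := by
      rw [← Finset.sum_subset (subset_univ ({u, v} : Finset (Fin m)))]
      · rw [Finset.sum_insert (by simp [huv]), Finset.sum_singleton]
      · intro i _ hi
        simp only [Finset.mem_insert, Finset.mem_singleton, not_or] at hi
        exact h0 i hi.1 hi.2
    have h2 := hsum e
    have h3 := hd e u
    have h4 := hd e v
    exact hz e (by omega) (by omega)
  | insert w T hw ih =>
    intro huT hvT
    have huw : u ≠ w := fun h => huT (by simp [h])
    have hvw : v ≠ w := fun h => hvT (by simp [h])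
    obtain ⟨y, hyu, hyv, hy0, hyz⟩ := ih (fun h => huT (Finset.mem_insert_of_mem h))
      (fun h => hvT (Finset.mem_insert_of_mem h))
    obtain ⟨q, hq0, hq⟩ := exists_vec (F := F) hn w y
    refine ⟨Function.update y w q, ?_, ?_, ?_, ?_⟩
    · rw [Function.update_of_ne huw, hyu]
    · rw [Function.update_of_ne hvw, hyv]
    · intro i hi
      by_cases hiw : i = w
      · subst hiw
        rw [Function.update_self]
        exact hq0
      · rw [Function.update_of_ne hiw]
        exact hy0 i (Finset.mem_of_mem_insert_of_ne hi hiw)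
    · intro e he
      by_cases hew : d e w = 0
      · have h1 : evz (F e) (fl (Function.update y w q)) = evz (F e) (fl y) := by
          apply BG.S5.indep (hF e)
          intro i hi
          rw [Function.update_of_ne]
          rintro rfl
          exact hi hew
        rw [h1]
        refine hyz e fun i hi hiu hiv => ?_
        by_cases hiw : i = w
        · rw [hiw]
          exact hew
        · exact he i (fun h => hi (Finset.mem_of_mem_insert_of_ne h hiw)) hiu hiv
      · have h1 : d e w = 1 := by
          have := hd e w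
          omega
        rw [BG.S5.evz_lin (hF e) h1]
        exact hq e h1

end SSm

open SSm in
theorem sS : StmtSS := by
  classical
  intro m K n F d hd hF hsum hn hsm u v huv hpair z hzu hzv hz
  obtain ⟨y, hyu, hyv, hy0, hyz⟩ := exists_ext hd hF hsum hn huv z hzu hzv hz
    (univ.filter fun i => i ≠ u ∧ i ≠ v) (by simp) (by simp)
  have hy0' : ∀ i, y i ≠ 0 := by
    intro i
    by_cases hiu : i = u
    · rw [hiu, hyu]
      exact hzu
    · by_cases hiv : i = v
      · rw [hiv, hyv]
        exact hzv
      · exact hy0 i (by simp [hiu, hiv])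
  have hZ : Zr F y := by
    intro e
    refine hyz e fun i hi hiu hiv => ?_
    exact absurd (by simp [hiu, hiv]) hi
  have hLI := hsm y hy0' hZ
  rw [Fintype.linearIndependent_iff] at hLI ⊢
  intro g hg
  set s : Fin K → ℂ := fun e => if h : d e u = 1 ∧ d e v = 1 then g ⟨e, h⟩ else 0 with hs
  have hkey : ∀ X : Fin K → ∀ w : Fin m, Fin (n w) → ℂ, ∀ w,
      ∑ e, s e • X e w = ∑ e : {e : Fin K // d e u = 1 ∧ d e v = 1}, g e • X e.1 w := by
    intro X w
    have h1 : ∑ e, s e • X e w =
        ∑ e ∈ univ.filter (fun e => d e u = 1 ∧ d e v = 1), s e • X e w := by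
      symm
      apply Finset.sum_subset (subset_univ _)
      intro e _ he
      simp only [mem_filter, mem_univ, true_and] at he
      simp only [hs, dif_neg he, zero_smul]
    rw [h1, Finset.sum_subtype (p := fun e => d e u = 1 ∧ d e v = 1) _ (by simp)]
    refine Finset.sum_congr rfl fun e _ => ?_
    simp only [hs, dif_pos e.2]
  have hzero : ∑ e, s e • (fun w : Fin m => cf F e w y) = 0 := by
    funext w
    rw [Finset.sum_apply]
    simp only [Pi.smul_apply]
    rw [hkey (fun e w => cf F e w y) w]
    have hg1 := congrArg Prod.fst hg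
    have hg2 := congrArg Prod.snd hg
    rw [Prod.fst_sum] at hg1
    rw [Prod.snd_sum] at hg2
    simp only [Prod.smul_fst, Prod.fst_zero] at hg1
    simp only [Prod.smul_snd, Prod.snd_zero] at hg2
    by_cases hwu : w = u
    · subst hwu
      rw [Pi.zero_apply, ← hg1]
      refine Finset.sum_congr rfl fun e _ => ?_
      congr 1
      funext t
      unfold cf
      apply BG.S5.indep (hF e.1)
      intro i hi
      by_cases hiw : i = w
      · subst hiw
        rw [Function.update_self, Function.update_self]
      · rw [Function.update_of_ne hiw, Function.update_of_ne hiw]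
        by_cases hiv : i = v
        · rw [hiv, hyv]
        · exact absurd (two_blocks hd (hpair e.1 e.2.1 e.2.2) huv e.2.1 e.2.2 hiw hiv) hi
    · by_cases hwv : w = v
      · subst hwv
        rw [Pi.zero_apply, ← hg2]
        refine Finset.sum_congr rfl fun e _ => ?_
        congr 1
        funext t
        unfold cf
        apply BG.S5.indep (hF e.1)
        intro i hi
        by_cases hiw : i = w
        · subst hiw
          rw [Function.update_self, Function.update_self]
        · rw [Function.update_of_ne hiw, Function.update_of_ne hiw]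
          by_cases hiu : i = u
          · rw [hiu, hyu]
          · exact absurd (two_blocks hd (hpair e.1 e.2.1 e.2.2) huv e.2.1 e.2.2 hiu hiw) hi
      · rw [Pi.zero_apply]
        refine Finset.sum_eq_zero fun e _ => ?_
        have h1 : cf F e.1 w y = 0 := by
          funext t
          have h2 : evz (F e.1) (fl (Function.update y w (Pi.single t 1))) =
              evz (F e.1) (fl y) := by
            apply BG.S5.indep (hF e.1)
            intro i hi
            rw [Function.update_of_ne]
            rintro rfl
            exact hi (two_blocks hd (hpair e.1 e.2.1 e.2.2) huv e.2.1 e.2.2 hwu hwv)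
          exact h2.trans (hZ e.1)
        rw [h1, smul_zero]
  intro e
  have h1 := hLI s hzero e.1
  simp only [hs, dif_pos e.2] at h1
  exact h1

end Pool.Agent.T6.H81.BN
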