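import Pool.Agent.T6.H81.BN.Defs
import Pool.Agent.T6.H81.BJ.GX
import Pool.Agent.T6.H81.BJ.WJ

/-!
Module WL (helper60): few `z` for which the vectors `M e * z` are dependent modulo given vectors.
-/

set_option autoImplicit false

namespace Pool.Agent.T6.H81.BN

open Finset Module Matrix
open Pool.Agent.H548.WM (ht bx mem_bx Rep)
open Pool.Agent.T6.H81.BJ (cvv SmB StmtGP StmtHC)

namespace ModWL

open Pool.Agent.T6.H81.BJ

variable {k N1 N2 : ℕ}

theorem cvv_sub {A : Type*} [CommRing A] (M : Fin k → Matrix (Fin N1) (Fin N2) ℤ)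
    (y y' : Fin N2 → A) (e : Fin k) : cvv M (y - y') e = cvv M y e - cvv M y' e := by
  unfold cvv
  rw [Matrix.mulVec_sub]

theorem cast_cvv (M : Fin k → Matrix (Fin N1) (Fin N2) ℤ) (n : ℕ) (y : Fin N2 → ℤ) (e : Fin k)
    (i : Fin N1) :
    cvv M (fun l => ((y l : ℤ) : ZMod n)) e i = ((cvv M y e i : ℤ) : ZMod n) :=
  (ModGX.map_cvv (Int.castRingHom (ZMod n)) M y e i).symm

/-- relations modulo `n` in terms of integers -/
theorem rel_iff (M : Fin k → Matrix (Fin N1) (Fin N2) ℤ) (n : ℕ) (s : Fin k → ℤ)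
    (y : Fin N2 → ℤ) :
    ∑ e, ((s e : ℤ) : ZMod n) • cvv M (fun l => ((y l : ℤ) : ZMod n)) e = 0 ↔
      ∀ i, (n : ℤ) ∣ ∑ e, s e * cvv M y e i := by
  rw [funext_iff]
  refine forall_congr' fun i => ?_
  rw [← ZMod.intCast_zmod_eq_zero_iff_dvd, Finset.sum_apply]
  push_cast
  simp only [Pi.smul_apply, smul_eq_mul, Pi.zero_apply, cast_cvv]

open Classical in
/-- the relations with a unit coefficient -/
noncomputable def KK (M : Fin k → Matrix (Fin N1) (Fin N2) ℤ) (n : ℕ) [NeZero n] :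
    Finset ((Fin k → ZMod n) × (Fin N2 → ZMod n)) :=
  Finset.univ.filter fun q => (∃ i, IsUnit (q.1 i)) ∧ ∑ e, q.1 e • cvv M q.2 e = 0

theorem mem_KK (M : Fin k → Matrix (Fin N1) (Fin N2) ℤ) (n : ℕ) [NeZero n]
    (q : (Fin k → ZMod n) × (Fin N2 → ZMod n)) :
    q ∈ KK M n ↔ (∃ i, IsUnit (q.1 i)) ∧ ∑ e, q.1 e • cvv M q.2 e = 0 := by
  classical
  unfold KK
  rw [Finset.mem_filter]
  exact ⟨fun h => h.2, fun h => ⟨Finset.mem_univ _, h⟩⟩

theorem val_cast {n : ℕ} [NeZero n] (a : ZMod n) : (((a.val : ℕ) : ℤ) : ZMod n) = a := by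
  rw [Int.cast_natCast, ZMod.natCast_zmod_val]

theorem step {p u : ℕ} (hp : p.Prime) [NeZero (p ^ u)] [NeZero (p ^ (u + 1))]
    (M : Fin k → Matrix (Fin N1) (Fin N2) ℤ) :
    (KK M (p ^ (u + 1))).card ≤
      Nat.card {q : (Fin k → ZMod (p ^ (u + 1))) × (Fin N2 → ZMod (p ^ (u + 1))) //
        (∃ i, IsUnit (q.1 i)) ∧ (∃ j, IsUnit (q.2 j)) ∧ ∑ e, q.1 e • cvv M q.2 e = 0} +
      p ^ k * (KK M (p ^ u)).card := by
  classical
  have hpu : 0 < p ^ u := pow_pos hp.pos u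
  have h1 := Finset.card_filter_add_card_filter_not (s := KK M (p ^ (u + 1)))
    (fun q => ∃ j, IsUnit (q.2 j))
  rw [← h1]
  refine Nat.add_le_add ?_ ?_
  · rw [Nat.card_eq_fintype_card, Fintype.card_subtype]
    refine Finset.card_le_card fun q hq => ?_
    rw [Finset.mem_filter, mem_KK] at hq
    rw [Finset.mem_filter]
    exact ⟨Finset.mem_univ _, hq.1.1, hq.2, hq.1.2⟩
  · have h2 : p ^ k * (KK M (p ^ u)).card =
        ((Finset.univ : Finset (Fin k → Fin p)) ×ˢ KK M (p ^ u)).card := by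
      rw [Finset.card_product, Finset.card_univ, Fintype.card_fun, Fintype.card_fin,
        Fintype.card_fin]
    rw [h2]
    have hlt : ∀ a : ZMod (p ^ (u + 1)), a.val / p ^ u < p := by
      intro a
      rw [Nat.div_lt_iff_lt_mul hpu, mul_comm, ← pow_succ]
      exact ZMod.val_lt a
    have hnu : ∀ a : ZMod (p ^ (u + 1)), ¬ IsUnit a → p ∣ a.val := by
      intro a ha
      rw [← val_cast a, ModGX.unit_iff hp (by omega), not_not] at ha
      exact_mod_cast ha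
    refine Finset.card_le_card_of_injOn
      (fun q => ((fun e => (⟨(q.1 e).val / p ^ u, hlt (q.1 e)⟩ : Fin p)),
        ((fun e => (((q.1 e).val : ℤ) : ZMod (p ^ u))),
          fun l => ((((q.2 l).val / p : ℕ) : ℤ) : ZMod (p ^ u))))) ?_ ?_
    · intro q hq
      rw [Finset.mem_coe, Finset.mem_filter, mem_KK] at hq
      obtain ⟨⟨⟨i, hi⟩, hrel⟩, hno⟩ := hq
      push Not at hno
      rw [Finset.mem_coe, Finset.mem_product]
      refine ⟨Finset.mem_univ _, ?_⟩
      rw [mem_KK]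
      refine ⟨⟨i, ?_⟩, ?_⟩
      · let ψ : ZMod (p ^ (u + 1)) →+* ZMod (p ^ u) :=
          ZMod.castHom (pow_dvd_pow p (Nat.le_succ u)) (ZMod (p ^ u))
        have h3 := hi.map ψ
        rw [← val_cast (q.1 i), map_intCast] at h3
        exact h3
      · rw [rel_iff]
        intro i
        have h3 : ∑ e, ((((q.1 e).val : ℕ) : ℤ) : ZMod (p ^ (u + 1))) •
            cvv M (fun l => ((((q.2 l).val : ℕ) : ℤ) : ZMod (p ^ (u + 1)))) e = 0 := by
          simp only [val_cast]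
          exact hrel
        rw [rel_iff] at h3
        have h4 := h3 i
        have h5 : (fun l => (((q.2 l).val : ℕ) : ℤ)) =
            (p : ℤ) • (fun l => (((q.2 l).val / p : ℕ) : ℤ)) := by
          funext l
          rw [Pi.smul_apply, smul_eq_mul]
          have h6 := Nat.mul_div_cancel' (hnu _ (hno l))
          exact_mod_cast h6.symm
        rw [h5] at h4
        simp only [ModGX.cvv_smul, Pi.smul_apply, smul_eq_mul] at h4
        have h7 : ∑ e, (((q.1 e).val : ℕ) : ℤ) * ((p : ℤ) *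
            cvv M (fun l => (((q.2 l).val / p : ℕ) : ℤ)) e i) = (p : ℤ) *
            ∑ e, (((q.1 e).val : ℕ) : ℤ) * cvv M (fun l => (((q.2 l).val / p : ℕ) : ℤ)) e i := by
          rw [Finset.mul_sum]
          exact Finset.sum_congr rfl fun e _ => by ring
        have h8 : ((p ^ (u + 1) : ℕ) : ℤ) = (p : ℤ) * ((p ^ u : ℕ) : ℤ) := by
          push_cast
          ring
        rw [h7, h8] at h4
        exact Int.dvd_of_mul_dvd_mul_left (by exact_mod_cast hp.ne_zero) h4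
    · intro q hq q' hq' he
      rw [Finset.mem_coe, Finset.mem_filter] at hq hq'
      have hno := hq.2
      have hno' := hq'.2
      push Not at hno hno'
      simp only [Prod.mk.injEq] at he
      obtain ⟨e1, e2, e3⟩ := he
      refine Prod.ext ?_ ?_
      · funext e
        apply ZMod.val_injective
        have h3 := congrArg Fin.val (congrFun e1 e)
        have h4 := congrFun e2 e
        simp only at h3 h4
        rw [Int.cast_natCast, Int.cast_natCast, ZMod.natCast_eq_natCast_iff'] at h4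
        rw [← Nat.mod_add_div (q.1 e).val (p ^ u), ← Nat.mod_add_div (q'.1 e).val (p ^ u), h3, h4]
      · funext l
        apply ZMod.val_injective
        have h4 : ((((q.2 l).val / p : ℕ) : ℤ) : ZMod (p ^ u)) =
            ((((q'.2 l).val / p : ℕ) : ℤ) : ZMod (p ^ u)) := congrFun e3 l
        rw [Int.cast_natCast, Int.cast_natCast, ZMod.natCast_eq_natCast_iff'] at h4
        have h5 : ∀ a : ZMod (p ^ (u + 1)), a.val / p < p ^ u := by
          intro a
          rw [Nat.div_lt_iff_lt_mul hp.pos, ← pow_succ]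
          exact ZMod.val_lt a
        rw [Nat.mod_eq_of_lt (h5 _), Nat.mod_eq_of_lt (h5 _)] at h4
        rw [← Nat.mul_div_cancel' (hnu _ (hno l)), ← Nat.mul_div_cancel' (hnu _ (hno' l)), h4]

theorem bound {p : ℕ} (hp : p.Prime) (M : Fin k → Matrix (Fin N1) (Fin N2) ℤ) (C0 : ℕ)
    (hC : ∀ t : ℕ, 1 ≤ t →
      Nat.card {q : (Fin k → ZMod (p ^ t)) × (Fin N2 → ZMod (p ^ t)) //
        (∃ i, IsUnit (q.1 i)) ∧ (∃ j, IsUnit (q.2 j)) ∧ ∑ e, q.1 e • cvv M q.2 e = 0} *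
        p ^ (t * N1) ≤ C0 * p ^ (t * (k + N2))) : ∀ (t : ℕ) [NeZero (p ^ t)],
    (KK M (p ^ t)).card ≤ (C0 * t + 1) * (p ^ t) ^ (k + (N2 - N1)) := by
  classical
  intro t
  induction t with
  | zero =>
    intro hne
    have h1 : (KK M (p ^ 0)).card ≤
        (Finset.univ : Finset ((Fin k → ZMod (p ^ 0)) × (Fin N2 → ZMod (p ^ 0)))).card :=
      Finset.card_le_card (Finset.subset_univ _)
    refine h1.trans ?_
    rw [Finset.card_univ, Fintype.card_prod, Fintype.card_fun, Fintype.card_fun, ZMod.card]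
    simp
  | succ u ih =>
    intro hne
    have hne' : NeZero (p ^ u) := ⟨(pow_pos hp.pos u).ne'⟩
    have h1 := step hp (u := u) M
    have h2 := ih
    have h3 : Nat.card {q : (Fin k → ZMod (p ^ (u + 1))) × (Fin N2 → ZMod (p ^ (u + 1))) //
        (∃ i, IsUnit (q.1 i)) ∧ (∃ j, IsUnit (q.2 j)) ∧ ∑ e, q.1 e • cvv M q.2 e = 0} ≤
        C0 * (p ^ (u + 1)) ^ (k + (N2 - N1)) := by
      refine Nat.le_of_mul_le_mul_right ?_ (pow_pos hp.pos ((u + 1) * N1))
      refine (hC (u + 1) (by omega)).trans ?_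
      rw [mul_assoc, ← pow_mul, ← pow_add]
      refine Nat.mul_le_mul_left _ (Nat.pow_le_pow_right hp.pos ?_)
      rw [← Nat.mul_add]
      exact Nat.mul_le_mul_left _ (by omega)
    have h4 : p ^ k * ((C0 * u + 1) * (p ^ u) ^ (k + (N2 - N1))) ≤
        (C0 * u + 1) * (p ^ (u + 1)) ^ (k + (N2 - N1)) := by
      have h5 : p ^ k ≤ p ^ (k + (N2 - N1)) := Nat.pow_le_pow_right hp.pos (by omega)
      calc p ^ k * ((C0 * u + 1) * (p ^ u) ^ (k + (N2 - N1)))
          ≤ p ^ (k + (N2 - N1)) * ((C0 * u + 1) * (p ^ u) ^ (k + (N2 - N1))) :=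
            Nat.mul_le_mul_right _ h5
        _ = (C0 * u + 1) * (p ^ (u + 1)) ^ (k + (N2 - N1)) := by
            rw [pow_succ, mul_pow]
            ring
    calc (KK M (p ^ (u + 1))).card ≤ _ := h1
      _ ≤ C0 * (p ^ (u + 1)) ^ (k + (N2 - N1)) +
          p ^ k * ((C0 * u + 1) * (p ^ u) ^ (k + (N2 - N1))) :=
          Nat.add_le_add h3 (Nat.mul_le_mul_left _ h2)
      _ ≤ C0 * (p ^ (u + 1)) ^ (k + (N2 - N1)) +
          (C0 * u + 1) * (p ^ (u + 1)) ^ (k + (N2 - N1)) := Nat.add_le_add_left h4 _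
      _ = (C0 * (u + 1) + 1) * (p ^ (u + 1)) ^ (k + (N2 - N1)) := by ring

/-! ### The saturated span -/

/-- the map to the rational vector space -/
noncomputable def toQ (N : ℕ) : (Fin N → ℤ) →ₗ[ℤ] (Fin N → ℚ) :=
  (Int.castAddHom ℚ).toIntLinearMap.compLeft (Fin N)

theorem toQ_apply (N : ℕ) (w : Fin N → ℤ) (i : Fin N) : toQ N w i = (w i : ℚ) := rfl

/-- the saturated span of the vectors `l` -/
noncomputable def sat {k' : ℕ} (l : Fin k' → Fin N1 → ℤ) : Submodule ℤ (Fin N1 → ℤ) :=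
  Submodule.comap (toQ N1)
    ((Submodule.span ℚ (Set.range fun i => toQ N1 (l i))).restrictScalars ℤ)

theorem mem_sat {k' : ℕ} (l : Fin k' → Fin N1 → ℤ) (w : Fin N1 → ℤ) :
    w ∈ sat l ↔ toQ N1 w ∈ Submodule.span ℚ (Set.range fun i => toQ N1 (l i)) := Iff.rfl

theorem mem_sat_of {k' : ℕ} (l : Fin k' → Fin N1 → ℤ) (w : Fin N1 → ℤ) (a : ℤ) (ha : a ≠ 0)
    (t : Fin k' → ℤ) (h : a • w = ∑ i, t i • l i) : w ∈ sat l := by
  rw [mem_sat]
  have h1 : (a : ℚ) • toQ N1 w ∈ Submodule.span ℚ (Set.range fun i => toQ N1 (l i)) := by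
    have h2 : (a : ℚ) • toQ N1 w = ∑ i, (t i : ℚ) • toQ N1 (l i) := by
      have h3 := congrArg (toQ N1) h
      rw [map_smul, map_sum] at h3
      simp only [map_smul] at h3
      funext j
      have h4 := congrFun h3 j
      simp only [Pi.smul_apply, Finset.sum_apply, zsmul_eq_mul] at h4
      simp only [Pi.smul_apply, Finset.sum_apply, smul_eq_mul]
      exact h4
    rw [h2]
    exact Submodule.sum_mem _ fun i _ =>
      Submodule.smul_mem _ _ (Submodule.subset_span ⟨i, rfl⟩)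
  have haq : (a : ℚ) ≠ 0 := by exact_mod_cast ha
  exact (Submodule.smul_mem_iff _ haq).1 h1

theorem finrank_sat {k' : ℕ} (l : Fin k' → Fin N1 → ℤ) : finrank ℤ (sat l) ≤ k' := by
  set b := Module.finBasis ℤ (sat l) with hb
  set v : Fin (finrank ℤ (sat l)) → (Fin N1 → ℚ) :=
    fun i => toQ N1 ((b i : sat l) : Fin N1 → ℤ) with hv
  have hli : LinearIndependent ℤ v := by
    have h1 : LinearIndependent ℤ (fun i => ((b i : sat l) : Fin N1 → ℤ)) :=
      b.linearIndependent.map' (Submodule.subtype _) (Submodule.ker_subtype _)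
    have h2 := h1.map' (toQ N1) (LinearMap.ker_eq_bot.2 (by
      intro a c hac
      funext j
      have := congrFun hac j
      rw [toQ_apply, toQ_apply] at this
      exact_mod_cast this))
    exact h2
  have hliQ : LinearIndependent ℚ v := (LinearIndependent.iff_fractionRing ℤ ℚ).1 hli
  have h4 : LinearIndependent ℚ (fun i => (⟨v i, (mem_sat l _).1 (b i).2⟩ :
      Submodule.span ℚ (Set.range fun i => toQ N1 (l i)))) :=
    LinearIndependent.of_comp (Submodule.subtype _) hliQ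
  have h5 := h4.fintype_card_le_finrank
  rw [Fintype.card_fin] at h5
  refine h5.trans ?_
  have h6 := finrank_range_le_card (R := ℚ) (fun i => toQ N1 (l i))
  rwa [Fintype.card_fin] at h6

open Classical in
/-- the saturated span modulo `n` -/
noncomputable def Lb {k' : ℕ} (l : Fin k' → Fin N1 → ℤ) (n : ℕ) [NeZero n] :
    Finset (Fin N1 → ZMod n) :=
  Finset.image (fun (c : Fin (finrank ℤ (sat l)) → ZMod n) (i : Fin N1) =>
    ∑ j, c j * (((Module.finBasis ℤ (sat l) j : sat l) : Fin N1 → ℤ) i : ZMod n)) Finset.univ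

theorem card_Lb {k' : ℕ} (l : Fin k' → Fin N1 → ℤ) (n : ℕ) [hn : NeZero n] :
    (Lb l n).card ≤ n ^ k' := by
  classical
  refine Finset.card_image_le.trans ?_
  rw [Finset.card_univ, Fintype.card_fun, ZMod.card, Fintype.card_fin]
  exact Nat.pow_le_pow_right (Nat.pos_of_ne_zero hn.out) (finrank_sat l)

theorem smul_Lb {k' : ℕ} (l : Fin k' → Fin N1 → ℤ) (n : ℕ) [NeZero n] (a : ZMod n)
    (w : Fin N1 → ZMod n) (hw : w ∈ Lb l n) : a • w ∈ Lb l n := by
  classical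
  unfold Lb at hw ⊢
  rw [Finset.mem_image] at hw ⊢
  obtain ⟨c, -, rfl⟩ := hw
  refine ⟨fun j => a * c j, Finset.mem_univ _, ?_⟩
  funext i
  rw [Pi.smul_apply, smul_eq_mul, Finset.mul_sum]
  exact Finset.sum_congr rfl fun j _ => by ring

theorem cast_Lb {k' : ℕ} (l : Fin k' → Fin N1 → ℤ) (n : ℕ) [NeZero n]
    (w : Fin N1 → ℤ) (hw : w ∈ sat l) : (fun i => ((w i : ℤ) : ZMod n)) ∈ Lb l n := by
  classical
  unfold Lb
  rw [Finset.mem_image]
  set b := Module.finBasis ℤ (sat l) with hb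
  refine ⟨fun j => ((b.repr ⟨w, hw⟩ j : ℤ) : ZMod n), Finset.mem_univ _, ?_⟩
  funext i
  have h1 := b.sum_repr ⟨w, hw⟩
  have h2 := congrArg Subtype.val h1
  have h3 := congrFun h2 i
  simp only [AddSubmonoidClass.coe_finsetSum, Finset.sum_apply] at h3
  have h4 : ∑ j, (b.repr ⟨w, hw⟩ j : ℤ) * ((b j : sat l) : Fin N1 → ℤ) i = w i := h3
  rw [← h4]
  push_cast
  rfl

/-! ### The count -/

open Classical in
/-- the relations modulo the span -/
noncomputable def TT {k' : ℕ} (M : Fin k → Matrix (Fin N1) (Fin N2) ℤ)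
    (l : Fin k' → Fin N1 → ℤ) (n : ℕ) [NeZero n] :
    Finset ((Fin k → ZMod n) × (Fin N2 → ZMod n)) :=
  Finset.univ.filter fun q => (∃ i, IsUnit (q.1 i)) ∧ ∑ e, q.1 e • cvv M q.2 e ∈ Lb l n

theorem mem_TT {k' : ℕ} (M : Fin k → Matrix (Fin N1) (Fin N2) ℤ)
    (l : Fin k' → Fin N1 → ℤ) (n : ℕ) [NeZero n]
    (q : (Fin k → ZMod n) × (Fin N2 → ZMod n)) :
    q ∈ TT M l n ↔ (∃ i, IsUnit (q.1 i)) ∧ ∑ e, q.1 e • cvv M q.2 e ∈ Lb l n := by
  classical
  unfold TT
  rw [Finset.mem_filter]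
  exact ⟨fun h => h.2, fun h => ⟨Finset.mem_univ _, h⟩⟩

theorem card_TT {k' : ℕ} (M : Fin k → Matrix (Fin N1) (Fin N2) ℤ)
    (l : Fin k' → Fin N1 → ℤ) (n : ℕ) [NeZero n] :
    (TT M l n).card ≤ (Lb l n).card * (KK M n).card := by
  classical
  have hch : ∀ (s : Fin k → ZMod n) (w : Fin N1 → ZMod n), ∃ y0 : Fin N2 → ZMod n,
      (∃ y : Fin N2 → ZMod n, ∑ e, s e • cvv M y e = w) → ∑ e, s e • cvv M y0 e = w := by
    intro s w
    by_cases h : ∃ y : Fin N2 → ZMod n, ∑ e, s e • cvv M y e = w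
    · obtain ⟨y, hy⟩ := h
      exact ⟨y, fun _ => hy⟩
    · exact ⟨0, fun h' => absurd h' h⟩
  choose y0 hy0 using hch
  rw [← Finset.card_product]
  refine Finset.card_le_card_of_injOn
    (fun q => (∑ e, q.1 e • cvv M q.2 e,
      (q.1, q.2 - y0 q.1 (∑ e, q.1 e • cvv M q.2 e)))) ?_ ?_
  · intro q hq
    rw [Finset.mem_coe, mem_TT] at hq
    rw [Finset.mem_coe, Finset.mem_product]
    refine ⟨hq.2, ?_⟩
    rw [mem_KK]
    refine ⟨hq.1, ?_⟩
    simp only [cvv_sub, smul_sub, Finset.sum_sub_distrib]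
    rw [hy0 q.1 (∑ e, q.1 e • cvv M q.2 e) ⟨q.2, rfl⟩, sub_self]
  · intro q _ q' _ he
    simp only [Prod.mk.injEq] at he
    obtain ⟨e1, e2, e3⟩ := he
    rw [e1, e2] at e3
    exact Prod.ext e2 (sub_left_injective e3)

open Classical in
/-- the bad vectors -/
noncomputable def Bad {k' : ℕ} (M : Fin k → Matrix (Fin N1) (Fin N2) ℤ)
    (l : Fin k' → Fin N1 → ℤ) (ρ : ℕ) : Finset (Fin N2 → ℤ) :=
  (bx N2 ρ).filter fun z => ∃ (s : Fin k → ℤ) (t : Fin k' → ℤ), s ≠ 0 ∧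
    ∑ e, s e • cvv M z e = ∑ i, t i • l i

theorem bad_le {k' p t : ℕ} (hp : p.Prime) (ht : 1 ≤ t) [NeZero (p ^ t)]
    (M : Fin k → Matrix (Fin N1) (Fin N2) ℤ)
    (l : Fin k' → Fin N1 → ℤ) (ρ : ℕ) (hρ : 2 * ρ < p ^ t) :
    (Bad M l ρ).card * Nat.totient (p ^ t) ≤ (TT M l (p ^ t)).card := by
  classical
  have h1 : ∀ z : Fin N2 → ℤ, ∃ s : Fin k → ℤ, z ∈ Bad M l ρ →
      (∃ i, ¬ (p : ℤ) ∣ s i) ∧ ∑ e, s e • cvv M z e ∈ sat l := by
    intro z
    by_cases hz : z ∈ Bad M l ρ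
    · obtain ⟨-, s, t', hs, h⟩ := Finset.mem_filter.1 hz
      obtain ⟨a, s', rfl, i, hi⟩ := ModWJ.exists_pow hp s hs
      refine ⟨s', fun _ => ⟨⟨i, hi⟩, ?_⟩⟩
      refine mem_sat_of l _ ((p : ℤ) ^ a) (pow_ne_zero _ (by exact_mod_cast hp.ne_zero)) t' ?_
      rw [← h, Finset.smul_sum]
      refine Finset.sum_congr rfl fun e _ => ?_
      rw [Pi.smul_apply, smul_eq_mul, mul_smul]
    · exact ⟨0, fun h => absurd h hz⟩
  choose S hS using h1
  have h2 : (Bad M l ρ).card * Nat.totient (p ^ t) =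
      (Bad M l ρ ×ˢ (Finset.univ : Finset (ZMod (p ^ t))ˣ)).card := by
    rw [Finset.card_product, Finset.card_univ, ZMod.card_units_eq_totient]
  rw [h2]
  refine Finset.card_le_card_of_injOn
    (fun c => ((fun e => (c.2 : ZMod (p ^ t)) * ((S c.1 e : ℤ) : ZMod (p ^ t))),
      fun j => ((c.1 j : ℤ) : ZMod (p ^ t)))) ?_ ?_
  · rintro ⟨z, u⟩ hc
    rw [Finset.mem_coe, Finset.mem_product] at hc
    obtain ⟨⟨i, hi⟩, hsat⟩ := hS z hc.1
    rw [Finset.mem_coe, mem_TT]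
    refine ⟨⟨i, ?_⟩, ?_⟩
    · exact u.isUnit.mul ((ModGX.unit_iff hp ht _).2 hi)
    · have h3 := smul_Lb l (p ^ t) (u : ZMod (p ^ t)) _ (cast_Lb l (p ^ t) _ hsat)
      have h4 : ∑ e, ((u : ZMod (p ^ t)) * ((S z e : ℤ) : ZMod (p ^ t))) •
          cvv M (fun j => ((z j : ℤ) : ZMod (p ^ t))) e = (u : ZMod (p ^ t)) •
          (fun i => (((∑ e, S z e • cvv M z e) i : ℤ) : ZMod (p ^ t))) := by
        funext i
        rw [Finset.sum_apply, Pi.smul_apply, Finset.sum_apply]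
        simp only [Pi.smul_apply, smul_eq_mul, cast_cvv]
        push_cast
        rw [Finset.mul_sum]
        exact Finset.sum_congr rfl fun e _ => by ring
      rw [h4]
      exact h3
  · rintro ⟨z, u⟩ hc ⟨z', u'⟩ hc' he
    rw [Finset.mem_coe, Finset.mem_product] at hc hc'
    simp only [Prod.mk.injEq] at he
    obtain ⟨e1, e2⟩ := he
    have hb : ∀ l, -(ρ : ℤ) ≤ z l ∧ z l ≤ ρ := ModWJ.mem_bx'.1 (Finset.mem_filter.1 hc.1).1
    have hb' : ∀ l, -(ρ : ℤ) ≤ z' l ∧ z' l ≤ ρ :=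
      ModWJ.mem_bx'.1 (Finset.mem_filter.1 hc'.1).1
    have h3 : z = z' := by
      funext j
      have h4 := (ZMod.intCast_eq_intCast_iff_dvd_sub _ _ _).1 (congrFun e2 j)
      have h5 : (2 * ρ : ℤ) < ((p ^ t : ℕ) : ℤ) := by exact_mod_cast hρ
      have h6 := hb j
      have h7 := hb' j
      have h8 := Int.eq_zero_of_abs_lt_dvd h4 (by
        rw [abs_lt]
        constructor <;> omega)
      omega
    subst h3
    obtain ⟨⟨i, hi⟩, -⟩ := hS z hc.1
    have h4 := congrFun e1 i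
    have h5 := ((ModGX.unit_iff hp ht _).2 hi).mul_right_cancel h4
    exact Prod.ext rfl (Units.ext h5)

end ModWL

open ModWL in
/-- Module WL. -/
theorem wL (hGP : StmtGP) (hHC : StmtHC) : StmtWL := by
  classical
  intro k N1 N2 M hM k' E hE1 hE2
  obtain ⟨p, hp, hMp⟩ := BJ.ModGX.good_prime hGP M hM
  obtain ⟨C0, hC0⟩ := hHC k N1 N2 M p hMp
  refine ⟨((2 * (C0 + 1) * (2 * p) ^ E : ℕ) : ℝ), by positivity, fun l ρ hρ => ?_⟩
  have hmain : (Bad M l ρ).card ≤ 2 * (C0 + 1) * (2 * p) ^ E * ρ ^ E := by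
    have hp2 := hp.out.two_le
    have hex : ∃ t, 2 * ρ < p ^ t :=
      ⟨2 * ρ, lt_of_lt_of_le (Nat.lt_two_pow_self) (Nat.pow_le_pow_left hp2 _)⟩
    let t := Nat.find hex
    have ht1 : 2 * ρ < p ^ t := Nat.find_spec hex
    have ht0 : t ≠ 0 := by
      intro h
      rw [h, pow_zero] at ht1
      omega
    have ht : 1 ≤ t := by omega
    have ht2 : p ^ (t - 1) ≤ 2 * ρ := by
      have := Nat.find_min hex (m := t - 1) (by omega)
      omega
    have ht3 : p ^ t ≤ 2 * p * ρ := by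
      have : p ^ t = p * p ^ (t - 1) := by
        rw [← pow_succ']
        congr 1
        omega
      rw [this]
      calc p * p ^ (t - 1) ≤ p * (2 * ρ) := Nat.mul_le_mul_left _ ht2
        _ = 2 * p * ρ := by ring
    have hne : NeZero (p ^ t) := ⟨pow_ne_zero _ hp.out.ne_zero⟩
    have hq : 0 < p ^ t := pow_pos hp.out.pos t
    have h1 := bad_le hp.out ht M l ρ ht1
    have h2 := card_TT M l (p ^ t)
    have h3 := card_Lb l (p ^ t)
    have h4 := bound hp.out M C0 hC0 t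
    have h5 := BJ.ModGX.totient_ge hp.out ht
    have h6 : t ≤ p ^ t := (Nat.lt_pow_self hp.out.one_lt).le
    have h7 : C0 * t + 1 ≤ (C0 + 1) * p ^ t := by nlinarith
    have h8 : (Bad M l ρ).card * p ^ t ≤
        (2 * (C0 + 1) * (p ^ t) ^ (k + k' + (N2 - N1))) * p ^ t := by
      calc (Bad M l ρ).card * p ^ t ≤ (Bad M l ρ).card * (2 * Nat.totient (p ^ t)) :=
            Nat.mul_le_mul_left _ h5
        _ = 2 * ((Bad M l ρ).card * Nat.totient (p ^ t)) := by ring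
        _ ≤ 2 * ((p ^ t) ^ k' * (((C0 + 1) * p ^ t) * (p ^ t) ^ (k + (N2 - N1)))) :=
            Nat.mul_le_mul_left _ (h1.trans (h2.trans (Nat.mul_le_mul h3
              (h4.trans (Nat.mul_le_mul_right _ h7)))))
        _ = (2 * (C0 + 1) * (p ^ t) ^ (k + k' + (N2 - N1))) * p ^ t := by
            rw [pow_add, pow_add, pow_add]
            ring
    have h9 := Nat.le_of_mul_le_mul_right h8 hq
    calc (Bad M l ρ).card ≤ 2 * (C0 + 1) * (p ^ t) ^ (k + k' + (N2 - N1)) := h9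
      _ ≤ 2 * (C0 + 1) * (p ^ t) ^ E :=
          Nat.mul_le_mul_left _ (Nat.pow_le_pow_right hq (by omega))
      _ ≤ 2 * (C0 + 1) * (2 * p * ρ) ^ E :=
          Nat.mul_le_mul_left _ (Nat.pow_le_pow_left ht3 _)
      _ = 2 * (C0 + 1) * (2 * p) ^ E * ρ ^ E := by rw [mul_pow]; ring
  have h10 : ((Bad M l ρ).card : ℝ) ≤ ((2 * (C0 + 1) * (2 * p) ^ E * ρ ^ E : ℕ) : ℝ) := by
    exact_mod_cast hmain
  rw [Nat.cast_mul, Nat.cast_pow] at h10
  exact h10

end Pool.Agent.T6.H81.BN
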