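import Mathlib
import Pool.Agent.T6.H81.BN.Defs
import Pool.Agent.T6.H81.BG.Fin3
import Pool.Agent.T6.H81.BH.Cut
import Pool.Agent.T6.H81.BG.S6

/-!
Systems of multilinear equations with few bad vectors: the asymptotic formula on every dense open
subset.
-/

set_option autoImplicit false

namespace Pool.Agent.T6.H81.BN

open Finset Module Matrix Filter Topology
open Pool.Agent.H548.WM (ht bx mem_bx Rep ht_pos)
open Pool.Agent.H548.BL (lat mem_lat rep_ne)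
open Pool.Agent.H548.TL (evz evz_map evz_int deg_evz)
open Pool.Agent.T6.H5.TW (fl MultiDeg)
open Pool.Agent.T6.H81.BG
open Pool.Agent.T6.H81.BH (StmtZ0 StmtPol StmtS6G am_cut polyW_cf neg PolyW Gd)
open Pool.Agent.T6.H81

namespace Fin10

/-- An integer point of the open set where `G` is not zero. -/
theorem int_pt (hSG : StmtS6G) {m K : ℕ} {n : Fin (m + 1) → ℕ}
    (F : Fin K → MvPolynomial (Σ i, Fin (n i)) ℤ) (d : Fin K → Fin (m + 1) → ℕ)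
    (hd1 : ∀ e v, d e v ≤ 1) (hF : ∀ e, MultiDeg (F e) (d e)) (hne : ∀ e, ∃ v, d e v = 1)
    (hn2 : ∀ v, ∑ e, d e v + 2 ≤ n v) (G : MvPolynomial (Σ i, Fin (n i)) ℤ)
    (hG : ∃ z : ∀ i, Fin (n i) → ℂ, (∀ v, z v ≠ 0) ∧ Zr F z ∧
      (∀ v, LinearIndependent ℂ (fun e : {e : Fin K // d e v = 1} => cf F e.1 v z)) ∧
      evz G (fl z) ≠ 0) :
    ∃ x : Pt n, (∀ v, x v ≠ 0) ∧ Zr F x ∧
      (∀ v, LinearIndependent ℤ (fun e : {e : Fin K // d e v = 1} => cf F e.1 v x)) ∧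
      evz G (fl x) ≠ 0 := by
  classical
  obtain ⟨z, hz0, hz1, hz2, hz3⟩ := hG
  have hJ : ∀ v, ∃ (r : ℕ) (ev : Fin r ≃ {e : Fin K // d e v = 1}) (J : Fin r → Fin (n v)),
      (Matrix.det (Matrix.of fun l s => cf F (ev l).1 v z (J s))) ≠ 0 := by
    intro v
    obtain ⟨ev⟩ : Nonempty (Fin (Fintype.card {e : Fin K // d e v = 1}) ≃
      {e : Fin K // d e v = 1}) := ⟨(Fintype.equivFin _).symm⟩
    have h1 := (hz2 v).comp ev ev.injective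
    obtain ⟨J, hJ⟩ := Pool.Agent.H548.BK.exists_minor'
      (B := Matrix.of fun l s => cf F (ev l).1 v z s) h1
    exact ⟨_, ev, J, hJ⟩
  choose r ev J hJ using hJ
  obtain ⟨Δ, hΔ⟩ : ∃ Δ : MvPolynomial (Σ i, Fin (n i)) ℤ,
    Δ = ∏ v, Matrix.det (Matrix.of fun l s => BG.S6.Cp F (ev v l).1 v (J v s)) := ⟨_, rfl⟩
  have hev : ∀ {R : Type} [CommRing R] (x : ∀ i, Fin (n i) → R), evz Δ (fl x) =
      ∏ v, Matrix.det (Matrix.of fun l s => cf F (ev v l).1 v x (J v s)) := by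
    intro R _ x
    rw [BG.S6.evz_hom, hΔ, map_prod]
    refine Finset.prod_congr rfl fun v _ => ?_
    rw [RingHom.map_det]
    congr 1
    ext l s
    show MvPolynomial.eval₂Hom (Int.castRingHom R) (fl x) (BG.S6.Cp F (ev v l).1 v (J v s)) = _
    rw [← BG.S6.evz_hom, BG.S6.evz_Cp]
    rfl
  have hmul : ∀ {R : Type} [CommRing R] (x : ∀ i, Fin (n i) → R), evz (Δ * G) (fl x) =
      evz Δ (fl x) * evz G (fl x) := by
    intro R _ x
    rw [BG.S6.evz_hom, BG.S6.evz_hom, BG.S6.evz_hom, map_mul]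
  obtain ⟨x, hx0, hx1, hx2⟩ := hSG m K n F d hd1 hF hne hn2 (Δ * G) ⟨z, hz0, hz1, hz2, by
    rw [hmul, hev]
    exact mul_ne_zero (Finset.prod_ne_zero_iff.2 fun v _ => hJ v) hz3⟩
  rw [hmul] at hx2
  have h3 := left_ne_zero_of_mul hx2
  rw [hev] at h3
  refine ⟨x, hx0, hx1, fun v => ?_, right_ne_zero_of_mul hx2⟩
  have h4 := Matrix.linearIndependent_rows_of_det_ne_zero
    ((Finset.prod_ne_zero_iff.1 h3) v (mem_univ v))
  have h5 : LinearIndependent ℤ (fun l : Fin (r v) => cf F (ev v l).1 v x) :=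
    LinearIndependent.of_comp (LinearMap.funLeft ℤ ℤ (J v)) h4
  exact (linearIndependent_equiv (ev v) (f := fun e : {e : Fin K // d e v = 1} =>
    cf F e.1 v x)).1 h5

/-- **Systems with few bad vectors**, every open subset. -/
theorem main (hB : StmtB3) (hC : StmtC3) (hP : StmtP3) (hH : StmtH3) (hW : StmtW3) (hR3 : StmtR3)
    (hZ : StmtZ3) (hS3 : StmtS3) (hS6 : StmtS6) (hS8 : StmtS8) (hZ0 : StmtZ0) (hPol : StmtPol)
    (hSG : StmtS6G) (hBB : StmtBB) (hNI : StmtNI) (hCH : StmtCH5)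
    {m K : ℕ} {n : Fin (m + 1) → ℕ}
    (F : Fin K → MvPolynomial (Σ i, Fin (n i)) ℤ) (d : Fin K → Fin (m + 1) → ℕ)
    (hd1 : ∀ e v, d e v ≤ 1) (hF : ∀ e, MultiDeg (F e) (d e)) (hd2 : ∀ e, 2 ≤ ∑ v, d e v)
    (hn2 : ∀ v, ∑ e, d e v + 2 ≤ n v) (hle : ∀ v, ∑ e, d e v * ∑ u, d e u + 1 ≤ n v)
    (hBP : ∀ u v, u ≠ v → BP F d u v)
    (ψ : (∀ v, Fin (n v) → ℝ) → ℝ) (S : Finset Nat.Primes)
    (φ : ∀ p : Nat.Primes, (∀ v, Fin (n v) → ℚ_[p]) → ℝ) (hψ : LFs {x | Zr F x} ψ)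
    (hφ : ∀ p ∈ S, LFs {x | Zr F x} (φ p)) :
    (∃ z : ∀ i, Fin (n i) → ℂ, (∀ v, z v ≠ 0) ∧ Zr F z ∧
      ∀ v, LinearIndependent ℂ (fun e : {e : Fin K // d e v = 1} => cf F e.1 v z)) ∧
    ∃ c : ℝ, 0 < c ∧ ∀ G : MvPolynomial (Σ i, Fin (n i)) ℤ,
      (∃ z : ∀ i, Fin (n i) → ℂ, (∀ v, z v ≠ 0) ∧ Zr F z ∧
        (∀ v, LinearIndependent ℂ (fun e : {e : Fin K // d e v = 1} => cf F e.1 v z)) ∧
        evz G (fl z) ≠ 0) →
      Tendsto (fun B : ℝ => ({x : Pt n | (∀ v, Rep (x v)) ∧ Zr F x ∧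
        (∀ v, LinearIndependent ℤ (fun e : {e : Fin K // d e v = 1} => cf F e.1 v x)) ∧
        evz G (fl x) ≠ 0 ∧
        (∏ v, (ht (x v) : ℝ) ^ (n v - ∑ e, d e v)) * Phs ψ S φ x ≤ B}.ncard : ℝ) /
          (B * Real.log B ^ m)) atTop (𝓝 c) := by
  have hne : ∀ e, ∃ v, d e v = 1 := by
    intro e
    by_contra hcon
    push Not at hcon
    have h1 : ∑ v, d e v = 0 := Finset.sum_eq_zero fun v _ => by
      have h2 := hd1 e v
      have h3 := hcon v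
      omega
    have := hd2 e
    omega
  have hbad : BadB F d := hBB (m + 1) K n F d hd1 hF hle hBP
  obtain ⟨x0, hx0⟩ := hNI (m + 1) K n F d hd1 hF hd2 hle hBP
  rw [pt_univ] at hx0
  have hex : ∃ z : ∀ i, Fin (n i) → ℂ, (∀ v, z v ≠ 0) ∧ Zr F z ∧
      ∀ v, LinearIndependent ℂ (fun e : {e : Fin K // d e v = 1} => cf F e.1 v z) :=
    ⟨fun v i => ((x0 v i : ℤ) : ℂ), fun v h0 => hx0.1 v (by
      funext i
      have := congrFun h0 i
      simpa using this), zr_cast hx0.2.1, fun v => li_cast (hx0.2.2 v)⟩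
  refine ⟨hex, ?_⟩
  obtain ⟨c, hc0, hc⟩ := sys_main hB hC hP hH hW hZ hS3 hS6 hS8 F d hd1 hF hne hn2 hle hbad hex
    ψ S φ hψ hφ
  refine ⟨c, hc0, fun G hG => ?_⟩
  have hMS := hS3 (m + 1) K n F d hd1 hF hle hbad
  have hFS := fs_of_ms hB hMS (fun v => by rw [card_eq_univ d hd1 v]; exact hn2 v)
  obtain ⟨hc0', hcp⟩ := hS8 (m + 1) K n F d hF
  have hP0 : ∀ x, PT F d univ x → ic ℝ x ∈ {x : ∀ v, Fin (n v) → ℝ | Zr F x} := fun x hx =>
    zr_cast (pt_univ.1 hx).2.1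
  have hPp : ∀ x, PT F d univ x → ∀ p : Nat.Primes,
      ic ℚ_[p] x ∈ {x : ∀ v, Fin (n v) → ℚ_[p] | Zr F x} := fun x hx p =>
    zr_cast (pt_univ.1 hx).2.1
  obtain ⟨x', hx'0, hx'1, hx'2, hx'3⟩ := int_pt hSG F d hd1 hF hne hn2 G hG
  have hGd := hCH (m + 1) K n F d hd1 hF hd2 hle hBP G x' hx'0 hx'1
    (fun v => (linearIndependent_equiv (eqEquiv d v)).2 (hx'2 v)) hx'3
  have hPW : PolyW (ι := fun v => BG.Eq d univ v)
      (fun (v : Fin (m + 1)) (x : Pt n) (e : BG.Eq d univ v) => cf F e.1 v x) :=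
    polyW_cf F (fun v => BG.Eq d univ v) (fun v e => e.1)
  obtain ⟨C, δ, hδ, hneg⟩ := neg hR3 hP hZ0 hPol hFS hPW G
    (List.finRange (m + 1) ++ List.finRange (m + 1))
    (fun x hx => hGd x (pt_univ.1 hx).1 (pt_univ.1 hx).2.1
      (fun v => (linearIndependent_equiv (eqEquiv d v)).2 ((pt_univ.1 hx).2.2 v)))
  have hset : ∀ (g : Pt n → ℝ) (B : ℝ), {x : Pt n | (∀ v, Rep (x v)) ∧ PT F d univ x ∧ g x ≤ B} =
      {x : Pt n | (∀ v, Rep (x v)) ∧ Zr F x ∧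
      (∀ v, LinearIndependent ℤ (fun e : {e : Fin K // d e v = 1} => cf F e.1 v x)) ∧
      g x ≤ B} := by
    intro g B
    ext x
    simp only [Set.mem_ofPred_eq, pt_univ]
    constructor
    · rintro ⟨h1, ⟨-, h2, h3⟩, h4⟩
      exact ⟨h1, h2, h3, h4⟩
    · rintro ⟨h1, h2, h3, h4⟩
      exact ⟨h1, ⟨fun v => rep_ne (h1 v), h2, h3⟩, h4⟩
  have hc' : Tendsto (fun B : ℝ => ({x : Pt n | (∀ v, Rep (x v)) ∧ PT F d univ x ∧
      (∏ v, (ht (x v) : ℝ) ^ (n v - Fintype.card (BG.Eq d univ v))) * Phs ψ S φ x ≤ B}.ncard : ℝ) /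
        (B * Real.log B ^ m)) atTop (𝓝 c) := by
    refine hc.congr fun B => ?_
    rw [hset (fun x => (∏ v, (ht (x v) : ℝ) ^ (n v - Fintype.card (BG.Eq d univ v))) *
      Phs ψ S φ x) B]
    simp only [card_eq_univ d hd1]
  have hcut := am_cut hH hZ (r := fun v => n v - Fintype.card (BG.Eq d univ v))
    (fun v => by
      show 1 ≤ n v - Fintype.card (BG.Eq d univ v)
      rw [card_eq_univ d hd1 v]
      have := hn2 v
      omega) _ (fun p => {x : ∀ v, Fin (n v) → ℚ_[p] | Zr F x}) hc0' hcp hP0 hPp ψ S φ hψ hφ hδ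
      hneg hc'
  refine hcut.congr fun B => ?_
  congr 3
  ext x
  simp only [Set.mem_ofPred_eq, pt_univ, card_eq_univ d hd1]
  constructor
  · rintro ⟨h1, ⟨⟨-, h2, h2'⟩, h3⟩, h4⟩
    exact ⟨h1, h2, h2', h3, h4⟩
  · rintro ⟨h1, h2, h2', h3, h4⟩
    exact ⟨h1, ⟨⟨fun v => rep_ne (h1 v), h2, h2'⟩, h3⟩, h4⟩

end Fin10

end Pool.Agent.T6.H81.BN
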