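import Mathlib
import Pool.Agent.T6.H81.BN.Fin10
import Pool.Agent.T6.H81.BG.S5

/-!
Smooth complete intersections of multilinear divisors: the asymptotic formula on every dense open
subset.
-/

set_option autoImplicit false

namespace Pool.Agent.T6.H81.BN

open Finset Module Matrix Filter Topology
open Pool.Agent.H548.WM (ht bx mem_bx Rep ht_pos)
open Pool.Agent.H548.BL (lat mem_lat rep_ne)
open Pool.Agent.H548.TL (evz evz_map evz_int deg_evz)
open Pool.Agent.T6.H5.TW (fl MultiDeg)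
open Pool.Agent.T6.H81.BG
open Pool.Agent.T6.H81.BH (StmtZ0 StmtPol StmtS6G)
open Pool.Agent.T6.H81

namespace Fin11

variable {m K : ℕ} {n : Fin m → ℕ}

/-- A pair of blocks without a common equation. -/
theorem bp_zero (F : Fin K → MvPolynomial (Σ i, Fin (n i)) ℤ) (d : Fin K → Fin m → ℕ)
    (hd1 : ∀ e v, d e v ≤ 1) (hF : ∀ e, MultiDeg (F e) (d e)) {u v : Fin m} (huv : u ≠ v)
    (h : ∀ e, d e u = 1 → d e v = 1 → False) : BP F d u v := by
  classical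
  refine ⟨0, le_rfl, fun T hu hv x hx hli ρ hρ => ?_⟩
  have h1 : ((bx (n v) ρ).filter fun z => z ≠ 0 ∧ ¬ LinearIndependent ℤ
      (fun e : BG.Eq d T u => cf F e.1 u (Function.update x v z))) = ∅ := by
    rw [Finset.filter_eq_empty_iff]
    rintro z - ⟨-, h2⟩
    apply h2
    have h3 : ∀ e : BG.Eq d T u, d e.1 v = 0 := by
      intro e
      by_contra hc
      have h5 := hd1 e.1 v
      exact h e.1 e.2.2 (by omega)
    have h6 : (fun e : BG.Eq d T u => cf F e.1 u (Function.update x v z)) =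
        fun e : BG.Eq d T u => cf F e.1 u x := by
      funext e
      exact BG.S5.cf_indep hF huv (h3 e) x z
    rw [h6]
    exact hli.comp (fun e : BG.Eq d T u => (⟨e.1, fun i hi => by
      by_cases hiv : i = v
      · rw [hiv]
        exact h3 e
      · exact e.2.1 i fun hT => hi (Finset.mem_erase.2 ⟨hiv, hT⟩), e.2.2⟩ :
        BG.Eq d (T.erase v) u)) (fun e e' hee => by
      have := congrArg Subtype.val hee
      exact Subtype.ext this)
  rw [h1]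
  simp

/-- All pairs of blocks. -/
theorem bp_all (hBPQ : StmtBPQ) (hBPR : StmtBPR) (hSS : StmtSS)
    (F : Fin K → MvPolynomial (Σ i, Fin (n i)) ℤ) (d : Fin K → Fin m → ℕ)
    (hd1 : ∀ e v, d e v ≤ 1) (hF : ∀ e, MultiDeg (F e) (d e)) (hd2 : ∀ e, 2 ≤ ∑ v, d e v)
    (hn1 : ∀ v, ∑ e, d e v + 1 ≤ n v) (hle : ∀ v, ∑ e, d e v * ∑ u, d e u + 1 ≤ n v)
    (hA : ∀ u v, u ≠ v → ∀ e e', e ≠ e' → d e u = 1 → d e v = 1 → d e' u = 1 → d e' v = 1 →
      ∑ i, d e i = 2)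
    (hN : ∀ u v, u ≠ v → ∀ e, d e u = 1 → d e v = 1 → ∑ i, d e i = 2 →
      ∑ e', d e' u + ∑ e', d e' v * ∑ i, d e' i + 1 ≤ n u ∧
      ∑ e', d e' u + ∑ e', d e' v * ∑ i, d e' i + 1 ≤ n v)
    (hR : ∀ u v, u ≠ v → ∀ e, d e u = 1 → d e v = 1 → 3 ≤ ∑ i, d e i →
      ∀ x : Pt n, (∀ i, x i ≠ 0) → ∑ e', d e' u + ∑ e', d e' v * ∑ i, d e' i ≤
        ((mf F e u v x).map (Int.cast : ℤ → ℚ)).rank)
    (hsm : ∀ z : ∀ v, Fin (n v) → ℂ, (∀ v, z v ≠ 0) → Zr F z →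
      LinearIndependent ℂ (fun (e : Fin K) (v : Fin m) => cf F e v z)) :
    ∀ u v, u ≠ v → BP F d u v := by
  intro u v huv
  by_cases h0 : ∀ e, d e u = 1 → d e v = 1 → False
  · exact bp_zero F d hd1 hF huv h0
  push Not at h0
  obtain ⟨e0, h1, h2, -⟩ := h0
  by_cases h3 : ∀ e, d e u = 1 → d e v = 1 → ∑ i, d e i = 2
  · obtain ⟨h4, h5⟩ := hN u v huv e0 h1 h2 (h3 e0 h1 h2)
    exact hBPQ m K n F d hd1 hF u v huv h3 h4 h5
      (hSS m K n F d hd1 hF hd2 hn1 hsm u v huv h3)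
  · push Not at h3
    obtain ⟨e1, h4, h5, h6⟩ := h3
    have h7 : ∀ e, d e u = 1 → d e v = 1 → e = e1 := by
      intro e h8 h9
      by_contra hne
      exact h6 (hA u v huv e1 e (Ne.symm hne) h4 h5 h8 h9)
    refine hBPR m K n F d hd1 hF hle u v huv (fun e e' a1 a2 a3 a4 => by
      rw [h7 e a1 a2, h7 e' a3 a4]) (fun e a1 a2 x hx => ?_)
    rw [h7 e a1 a2]
    have h8 : 2 ≤ ∑ i, d e1 i := hd2 e1
    exact hR u v huv e1 h4 h5 (by omega) x hx

/-- A second block of an equation. -/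
theorem other (d : Fin K → Fin m → ℕ) (hd1 : ∀ e v, d e v ≤ 1) (hd2 : ∀ e, 2 ≤ ∑ v, d e v)
    (e : Fin K) (v : Fin m) : ∃ u, u ≠ v ∧ d e u = 1 := by
  by_contra hcon
  push Not at hcon
  have h1 : ∑ u, d e u = d e v := by
    apply Finset.sum_eq_single v
    · intro u _ hu
      have h2 := hcon u hu
      have h3 := hd1 e u
      omega
    · intro h
      exact absurd (mem_univ v) h
  have h2 := hd2 e
  have h3 := hd1 e v
  omega

/-- The numerical conditions. -/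
theorem num (F : Fin K → MvPolynomial (Σ i, Fin (n i)) ℤ) (d : Fin K → Fin m → ℕ)
    (hd1 : ∀ e v, d e v ≤ 1) (hd2 : ∀ e, 2 ≤ ∑ v, d e v) (hn0 : ∀ v, 2 ≤ n v)
    (hN : ∀ u v, u ≠ v → ∀ e, d e u = 1 → d e v = 1 → ∑ i, d e i = 2 →
      ∑ e', d e' u + ∑ e', d e' v * ∑ i, d e' i + 1 ≤ n u ∧
      ∑ e', d e' u + ∑ e', d e' v * ∑ i, d e' i + 1 ≤ n v)
    (hR : ∀ u v, u ≠ v → ∀ e, d e u = 1 → d e v = 1 → 3 ≤ ∑ i, d e i →
      ∀ x : Pt n, (∀ i, x i ≠ 0) → ∑ e', d e' u + ∑ e', d e' v * ∑ i, d e' i ≤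
        ((mf F e u v x).map (Int.cast : ℤ → ℚ)).rank) (v : Fin m) :
    ∑ e, d e v + 2 ≤ n v ∧ ∑ e, d e v * ∑ u, d e u + 1 ≤ n v := by
  have hsk : 2 * ∑ e, d e v ≤ ∑ e, d e v * ∑ u, d e u := by
    rw [Finset.mul_sum]
    refine Finset.sum_le_sum fun e _ => ?_
    have := Nat.mul_le_mul_left (d e v) (hd2 e)
    omega
  by_cases h0 : ∃ e, d e v = 1
  · obtain ⟨e, he⟩ := h0
    obtain ⟨u, huv, hu⟩ := other d hd1 hd2 e v
    have hku : 1 ≤ ∑ e', d e' u := by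
      have := Finset.single_le_sum (f := fun e' => d e' u) (fun _ _ => Nat.zero_le _) (mem_univ e)
      simp only [hu] at this
      exact this
    have hkv : 1 ≤ ∑ e', d e' v := by
      have := Finset.single_le_sum (f := fun e' => d e' v) (fun _ _ => Nat.zero_le _) (mem_univ e)
      simp only [he] at this
      exact this
    have key : ∑ e', d e' u + ∑ e', d e' v * ∑ i, d e' i ≤ n v := by
      by_cases h2 : ∑ i, d e i = 2
      · have := (hN u v huv e hu he h2).2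
        omega
      · have h3 : 3 ≤ ∑ i, d e i := by
          have := hd2 e
          omega
        have h4 := hR u v huv e hu he h3 (fun i => Pi.single ⟨0, by
          have := hn0 i
          omega⟩ 1) (fun i h => by
          have := congrFun h ⟨0, by
            have := hn0 i
            omega⟩
          simp at this)
        refine h4.trans ((Matrix.rank_le_width _).trans le_rfl)
    omega
  · have h1 : ∀ e, d e v = 0 := by
      intro e
      by_contra h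
      have := hd1 e v
      exact h0 ⟨e, by omega⟩
    have := hn0 v
    simp only [h1, Finset.sum_const_zero, zero_mul]
    omega

/-- **Smooth complete intersections of multilinear divisors.** -/
theorem main (hB : StmtB3) (hC : StmtC3) (hP : StmtP3) (hH : StmtH3) (hW : StmtW3) (hR3 : StmtR3)
    (hZ : StmtZ3) (hS3 : StmtS3) (hS6 : StmtS6) (hS8 : StmtS8) (hZ0 : StmtZ0) (hPol : StmtPol)
    (hSG : StmtS6G) (hBB : StmtBB) (hNI : StmtNI) (hCH : StmtCH5) (hBPQ : StmtBPQ)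
    (hBPR : StmtBPR) (hSS : StmtSS)
    {m K : ℕ} {n : Fin (m + 1) → ℕ}
    (F : Fin K → MvPolynomial (Σ i, Fin (n i)) ℤ) (d : Fin K → Fin (m + 1) → ℕ)
    (hd1 : ∀ e v, d e v ≤ 1) (hF : ∀ e, MultiDeg (F e) (d e)) (hd2 : ∀ e, 2 ≤ ∑ v, d e v)
    (hn0 : ∀ v, 2 ≤ n v)
    (hA : ∀ u v, u ≠ v → ∀ e e', e ≠ e' → d e u = 1 → d e v = 1 → d e' u = 1 → d e' v = 1 →
      ∑ i, d e i = 2)
    (hN : ∀ u v, u ≠ v → ∀ e, d e u = 1 → d e v = 1 → ∑ i, d e i = 2 →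
      ∑ e', d e' u + ∑ e', d e' v * ∑ i, d e' i + 1 ≤ n u ∧
      ∑ e', d e' u + ∑ e', d e' v * ∑ i, d e' i + 1 ≤ n v)
    (hR : ∀ u v, u ≠ v → ∀ e, d e u = 1 → d e v = 1 → 3 ≤ ∑ i, d e i →
      ∀ x : Pt n, (∀ i, x i ≠ 0) → ∑ e', d e' u + ∑ e', d e' v * ∑ i, d e' i ≤
        ((mf F e u v x).map (Int.cast : ℤ → ℚ)).rank)
    (hsm : ∀ z : ∀ v, Fin (n v) → ℂ, (∀ v, z v ≠ 0) → Zr F z →
      LinearIndependent ℂ (fun (e : Fin K) (v : Fin (m + 1)) => cf F e v z))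
    (ψ : (∀ v, Fin (n v) → ℝ) → ℝ) (S : Finset Nat.Primes)
    (φ : ∀ p : Nat.Primes, (∀ v, Fin (n v) → ℚ_[p]) → ℝ) (hψ : LFs {x | Zr F x} ψ)
    (hφ : ∀ p ∈ S, LFs {x | Zr F x} (φ p)) :
    (∃ z : ∀ i, Fin (n i) → ℂ, (∀ v, z v ≠ 0) ∧ Zr F z ∧
      ∀ v, LinearIndependent ℂ (fun e : {e : Fin K // d e v = 1} => cf F e.1 v z)) ∧
    ∃ c : ℝ, 0 < c ∧ ∀ G : MvPolynomial (Σ i, Fin (n i)) ℤ,
      (∃ z : ∀ i, Fin (n i) → ℂ, (∀ v, z v ≠ 0) ∧ Zr F z ∧
        (∀ v, LinearIndependent ℂ (fun e : {e : Fin K // d e v = 1} => cf F e.1 v z)) ∧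
        evz G (fl z) ≠ 0) →
      Tendsto (fun B : ℝ => ({x : Pt n | (∀ v, Rep (x v)) ∧ Zr F x ∧
        (∀ v, LinearIndependent ℤ (fun e : {e : Fin K // d e v = 1} => cf F e.1 v x)) ∧
        evz G (fl x) ≠ 0 ∧
        (∏ v, (ht (x v) : ℝ) ^ (n v - ∑ e, d e v)) * Phs ψ S φ x ≤ B}.ncard : ℝ) /
          (B * Real.log B ^ m)) atTop (𝓝 c) := by
  have h1 := fun v => (num F d hd1 hd2 hn0 hN hR v).1
  have h2 := fun v => (num F d hd1 hd2 hn0 hN hR v).2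
  exact Fin10.main hB hC hP hH hW hR3 hZ hS3 hS6 hS8 hZ0 hPol hSG hBB hNI hCH F d hd1 hF hd2 h1 h2
    (bp_all hBPQ hBPR hSS F d hd1 hF hd2 (fun v => by have := h1 v; omega) h2 hA hN hR hsm)
    ψ S φ hψ hφ

end Fin11

end Pool.Agent.T6.H81.BN
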