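import Pool.Agent.T6.H81.BN.Defs
import Pool.Agent.T6.H81.BG.S5

/-!
Module BPR: the condition for a pair of blocks with at most one common equation, which has a large
rank.
-/

set_option autoImplicit false

namespace Pool.Agent.T6.H81.BN

open Finset Module Matrix
open Pool.Agent.H548.WM (ht bx mem_bx Rep)
open Pool.Agent.H548.BL (lat)
open Pool.Agent.H548.TL (evz)
open Pool.Agent.T6.H5.TW (fl MultiDeg)
open Pool.Agent.T6.H81.BG (Pt Zr cf Eq PT BadB mf)

open Classical in
theorem bPR : StmtBPR := by
  intro m K n F d hd hF hn u v huv huniq hrk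
  set b := n v - ∑ e, d e v * ∑ i, d e i - 1 with hb
  refine ⟨3 ^ b * 3 ^ n v, by positivity, fun T hu hv x hx hold ρ hρ => ?_⟩
  have hn' := hn v
  have hle : (((bx (n v) ρ).filter fun z => z ≠ 0 ∧ ¬ LinearIndependent ℤ
      (fun e : BG.Eq d T u => cf F e.1 u (Function.update x v z))).card : ℝ) ≤
      (((bx (n v) ρ).filter fun z => ¬ LinearIndependent ℤ
      (fun e : BG.Eq d T u => cf F e.1 u (Function.update x v z))).card : ℝ) := by
    have : ((bx (n v) ρ).filter fun z => z ≠ 0 ∧ ¬ LinearIndependent ℤ
      (fun e : BG.Eq d T u => cf F e.1 u (Function.update x v z))) ⊆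
      ((bx (n v) ρ).filter fun z => ¬ LinearIndependent ℤ
      (fun e : BG.Eq d T u => cf F e.1 u (Function.update x v z))) := by
      intro z hz
      rw [mem_filter] at hz ⊢
      exact ⟨hz.1, hz.2.2⟩
    exact_mod_cast card_le_card this
  refine hle.trans ?_
  have hgoal : (3 * (ρ : ℝ)) ^ b * 3 ^ n v = 3 ^ b * 3 ^ n v * (ρ : ℝ) ^ b := by
    rw [mul_pow]; ring
  rw [← hgoal]
  by_cases hex : ∃ e0 : BG.Eq d T u, d e0.1 v = 1
  · obtain ⟨e0, he0⟩ := hex
    have hother : ∀ e : BG.Eq d T u, e ≠ e0 → d e.1 v = 0 := by
      intro e he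
      by_contra hcon
      have h1 : d e.1 v = 1 := by
        have := hd e.1 v
        omega
      exact he (Subtype.ext (huniq e.1 e0.1 e.2.2 h1 e0.2.2 he0))
    have hr1 := hrk e0.1 e0.2.2 he0 x hx
    have hr2 := BG.S5.rank_real (mf F e0.1 u v x)
    have hr3 : ((mf F e0.1 u v x).map (Int.cast : ℤ → ℝ)).rank ≤ n v := by
      have := Matrix.rank_le_width ((mf F e0.1 u v x).map (Int.cast : ℤ → ℝ))
      exact this
    have hc2 := BG.S5.card_eq_le (d := d) T u
    have hc3 : 0 < Fintype.card (BG.Eq d T u) := Fintype.card_pos_iff.2 ⟨e0⟩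
    have hLI : LinearIndependent ℤ (fun i : {i : BG.Eq d T u // i ≠ e0} => cf F i.1.1 u x) := by
      let φ : {i : BG.Eq d T u // i ≠ e0} → BG.Eq d (T.erase v) u := fun i =>
        ⟨i.1.1, fun j hj => by
          by_cases hjv : j = v
          · rw [hjv]
            exact hother i.1 i.2
          · exact i.1.2.1 j (fun h => hj (Finset.mem_erase.2 ⟨hjv, h⟩)), i.1.2.2⟩
      have hφ : Function.Injective φ := by
        intro a b hab
        have hab1 := congrArg Subtype.val hab
        have hab2 : a.1.1 = b.1.1 := hab1
        exact Subtype.ext (Subtype.ext hab2)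
      exact hold.comp φ hφ
    have hmain := BG.S5.bad_card (mf F e0.1 u v x) (fun i : BG.Eq d T u => cf F i.1 u x) e0
      (b := b) hLI (by omega) hρ
    refine le_trans ?_ hmain
    apply le_of_eq
    congr 2
    apply Finset.filter_congr
    intro z _
    have : (fun e : BG.Eq d T u => cf F e.1 u (Function.update x v z)) =
        (fun i : BG.Eq d T u => if i = e0 then mf F e0.1 u v x *ᵥ z else cf F i.1 u x) := by
      funext i
      by_cases hi : i = e0
      · rw [if_pos hi, hi]
        exact BG.S5.cf_mf hF huv he0 x z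
      · rw [if_neg hi]
        exact BG.S5.cf_indep hF huv (hother i hi) x z
    rw [this]
    constructor <;> intro h <;> convert h
  · push Not at hex
    have hz : ∀ e : BG.Eq d T u, d e.1 v = 0 := fun e => by
      have h1 := hex e
      have h2 := hd e.1 v
      omega
    have hempty : ((bx (n v) ρ).filter fun z => ¬ LinearIndependent ℤ
        (fun e : BG.Eq d T u => cf F e.1 u (Function.update x v z))) = ∅ := by
      apply Finset.filter_eq_empty_iff.2
      intro z _
      rw [not_not]
      let φ : BG.Eq d T u → BG.Eq d (T.erase v) u := fun i =>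
        ⟨i.1, fun j hj => by
          by_cases hjv : j = v
          · rw [hjv]
            exact hz i
          · exact i.2.1 j (fun h => hj (Finset.mem_erase.2 ⟨hjv, h⟩)), i.2.2⟩
      have hφ : Function.Injective φ := by
        intro a b hab
        have hab1 := congrArg Subtype.val hab
        have hab2 : a.1 = b.1 := hab1
        exact Subtype.ext hab2
      have h1 := hold.comp φ hφ
      have : (fun e : BG.Eq d T u => cf F e.1 u (Function.update x v z)) =
          (fun e : BG.Eq d (T.erase v) u => cf F e.1 u x) ∘ φ := by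
        funext e
        exact BG.S5.cf_indep hF huv (hz e) x z
      rw [this]
      exact h1
    rw [hempty]
    simp only [Finset.card_empty, Nat.cast_zero]
    positivity

end Pool.Agent.T6.H81.BN
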